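import Mathlib

/-!
Arithmetic of the three cycle lengths `10 ℓ²`, `10 ℓ² + 10`, `10 ℓ² + 10 ℓ`: times in
`[0, (ℓ - 1) 10 ℓ²]` which are close modulo the three lengths are close.
-/

namespace Pool.Agent.MP_000f96_co

/-- The three cycle lengths. -/
def NN (l : ℕ) : Fin 3 → ℕ := ![10 * l ^ 2, 10 * l ^ 2 + 10, 10 * l ^ 2 + 10 * l]

/-- The number of steps. -/
def TT (l : ℕ) : ℕ := (l - 1) * (10 * l ^ 2)

lemma TT_eq (l : ℕ) (hl : 1 ≤ l) : (TT l : ℤ) = ((l : ℤ) - 1) * (10 * (l : ℤ) ^ 2) := by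
  unfold TT
  push_cast [Nat.cast_sub hl]
  ring

/-- A multiple of a number `≥ 10 ℓ²` of absolute value at most `T + 9` has a factor
at most `ℓ - 1`. -/
lemma factor_bound (l : ℤ) (hl : 1 ≤ l) (N x : ℤ) (hN : 10 * l ^ 2 ≤ N)
    (h1 : N * x ≤ (l - 1) * (10 * l ^ 2) + 9) (h2 : -((l - 1) * (10 * l ^ 2) + 9) ≤ N * x) :
    x ≤ l - 1 ∧ -(l - 1) ≤ x := by
  have hl2 : 1 ≤ l ^ 2 := by nlinarith
  constructor
  · by_contra hcon
    push Not at hcon
    have hx : l ≤ x := by omega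
    have h3 : 10 * l ^ 2 * l ≤ N * x := by
      have : 10 * l ^ 2 * l ≤ N * l := by nlinarith
      have : N * l ≤ N * x := by
        apply mul_le_mul_of_nonneg_left hx
        nlinarith
      linarith
    nlinarith
  · by_contra hcon
    push Not at hcon
    have hx : l ≤ -x := by omega
    have h3 : 10 * l ^ 2 * l ≤ N * (-x) := by
      have : 10 * l ^ 2 * l ≤ N * l := by nlinarith
      have : N * l ≤ N * (-x) := by
        apply mul_le_mul_of_nonneg_left hx
        nlinarith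
      linarith
    nlinarith

/-- The key separation property of the three moduli. -/
lemma sep3 (l : ℕ) (hl : 1 ≤ l) (a b c d1 d2 d3 : ℤ)
    (ha : 0 ≤ a) (ha' : a ≤ TT l) (hb : 0 ≤ b) (hb' : b ≤ TT l) (hc : 0 ≤ c) (hc' : c ≤ TT l)
    (hd1 : -3 ≤ d1) (hd1' : d1 ≤ 3) (hd2 : -3 ≤ d2) (hd2' : d2 ≤ 3) (hd3 : -3 ≤ d3)
    (hd3' : d3 ≤ 3)
    (h1 : (NN l 0 : ℤ) ∣ a - b - d1) (h2 : (NN l 1 : ℤ) ∣ b - c - d2)
    (h3 : (NN l 2 : ℤ) ∣ c - a - d3) : a - b = d1 ∧ b - c = d2 ∧ c - a = d3 := by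
  rw [TT_eq l hl] at ha' hb' hc'
  obtain ⟨x, hx⟩ := h1
  obtain ⟨y, hy⟩ := h2
  obtain ⟨z, hz⟩ := h3
  simp only [NN] at hx hy hz
  simp only [Matrix.cons_val_zero, Matrix.cons_val_one, Matrix.cons_val] at hx hy hz
  push_cast at hx hy hz
  have hl' : (1 : ℤ) ≤ (l : ℤ) := by exact_mod_cast hl
  generalize (l : ℤ) = m at *
  have bx := factor_bound m hl' (10 * m ^ 2) x (le_refl _) (by rw [← hx]; linarith)
    (by rw [← hx]; linarith)
  have by' := factor_bound m hl' (10 * m ^ 2 + 10) y (by linarith) (by rw [← hy]; linarith)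
    (by rw [← hy]; linarith)
  have bz := factor_bound m hl' (10 * m ^ 2 + 10 * m) z (by linarith) (by rw [← hz]; linarith)
    (by rw [← hz]; linarith)
  have hsum : (x + y + z) * (10 * m ^ 2) + 10 * y + 10 * m * z = -(d1 + d2 + d3) := by
    linear_combination -hx - hy - hz
  have hmz : m * z ≤ m * (m - 1) := mul_le_mul_of_nonneg_left bz.1 (by linarith)
  have hmz' : -(m * (m - 1)) ≤ m * z := by
    have := mul_le_mul_of_nonneg_left bz.2 (show (0 : ℤ) ≤ m by linarith)
    linarith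
  have hs0 : x + y + z = 0 := by
    have hm2 : 1 ≤ m ^ 2 := by nlinarith
    by_contra hne
    rcases lt_or_gt_of_ne hne with hlt | hgt
    · have : x + y + z ≤ -1 := by omega
      have h4 : (x + y + z) * (10 * m ^ 2) ≤ -1 * (10 * m ^ 2) :=
        mul_le_mul_of_nonneg_right this (by linarith)
      nlinarith
    · have : 1 ≤ x + y + z := by omega
      have h4 : 1 * (10 * m ^ 2) ≤ (x + y + z) * (10 * m ^ 2) :=
        mul_le_mul_of_nonneg_right this (by linarith)
      nlinarith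
  rw [hs0] at hsum
  have h5 : 10 * (y + m * z) = -(d1 + d2 + d3) := by linarith
  have h6 : y + m * z = 0 := by omega
  have hz0 : z = 0 := by
    by_contra hne
    rcases lt_or_gt_of_ne hne with hlt | hgt
    · have : z ≤ -1 := by omega
      have h4 : m * z ≤ m * (-1) := mul_le_mul_of_nonneg_left this (by linarith)
      linarith [by'.1]
    · have : 1 ≤ z := by omega
      have h4 : m * 1 ≤ m * z := mul_le_mul_of_nonneg_left this (by linarith)
      linarith [by'.2]
  rw [hz0] at h6 hz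
  have hy0 : y = 0 := by linarith
  have hx0 : x = 0 := by linarith
  rw [hx0] at hx
  rw [hy0] at hy
  refine ⟨by linarith, by linarith, by linarith⟩

/-- Separation for two of the moduli. -/
lemma sep2 (l : ℕ) (hl : 1 ≤ l) (i j : Fin 3) (hij : i ≠ j) (a b d e : ℤ)
    (ha : 0 ≤ a) (ha' : a ≤ TT l) (hb : 0 ≤ b) (hb' : b ≤ TT l)
    (hd : -3 ≤ d) (hd' : d ≤ 3) (he : -3 ≤ e) (he' : e ≤ 3)
    (h1 : (NN l i : ℤ) ∣ a - b - d) (h2 : (NN l j : ℤ) ∣ a - b - e) : a - b = d ∧ a - b = e := by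
  have h1' : (NN l i : ℤ) ∣ b - a - (-d) := by
    have := (dvd_neg (α := ℤ)).2 h1
    convert! this using 1; ring
  have h2' : (NN l j : ℤ) ∣ b - a - (-e) := by
    have := (dvd_neg (α := ℤ)).2 h2
    convert! this using 1; ring
  fin_cases i <;> fin_cases j <;> simp only [Fin.zero_eta, Fin.mk_one, Fin.reduceFinMk, ne_eq,
    not_true_eq_false, Fin.isValue] at hij h1 h2 h1' h2'
  · obtain ⟨h3, h4, h5⟩ := sep3 l hl a b a d (-e) 0 ha ha' hb hb' ha ha' (by omega) (by omega)
      (by omega) (by omega) (by omega) (by omega) h1 h2' (by simp)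
    omega
  · obtain ⟨h3, h4, h5⟩ := sep3 l hl a b b d 0 (-e) ha ha' hb hb' hb hb' (by omega) (by omega)
      (by omega) (by omega) (by omega) (by omega) h1 (by simp) h2'
    omega
  · obtain ⟨h3, h4, h5⟩ := sep3 l hl b a b (-e) d 0 hb hb' ha ha' hb hb' (by omega) (by omega)
      (by omega) (by omega) (by omega) (by omega) h2' h1 (by simp)
    omega
  · obtain ⟨h3, h4, h5⟩ := sep3 l hl a a b 0 d (-e) ha ha' ha ha' hb hb' (by omega) (by omega)
      (by omega) (by omega) (by omega) (by omega) (by simp) h1 h2'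
    omega
  · obtain ⟨h3, h4, h5⟩ := sep3 l hl a b b e 0 (-d) ha ha' hb hb' hb hb' (by omega) (by omega)
      (by omega) (by omega) (by omega) (by omega) h2 (by simp) h1'
    omega
  · obtain ⟨h3, h4, h5⟩ := sep3 l hl a a b 0 e (-d) ha ha' ha ha' hb hb' (by omega) (by omega)
      (by omega) (by omega) (by omega) (by omega) (by simp) h2 h1'
    omega

end Pool.Agent.MP_000f96_co
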