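import Pool.Agent.MP_000f96_co.Defs

namespace Pool.Agent.MP_000f96_co

open SimpleGraph Finset

variable {V W : Type} [Fintype V]

/-- Adding a non-edge creates a new copy iff some copy uses it. -/
lemma copyCount_lt_iff (G : SimpleGraph V) (H : SimpleGraph W) {u v : V}
    (huv : u ≠ v) (hn : ¬ G.Adj u v) :
    G.copyCount H < (G ⊔ edge u v).copyCount H ↔
      ∃ f : Copy H (G ⊔ edge u v), ∃ a b, H.Adj a b ∧ f a = u ∧ f b = v := by
  classical
  set G' := G ⊔ edge u v with hG'
  have hle : G ≤ G' := le_sup_left
  have hadj' : ∀ x y, G'.Adj x y → ¬ G.Adj x y → (x = u ∧ y = v) ∨ (x = v ∧ y = u) := by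
    intro x y h1 h2
    rw [hG', sup_adj] at h1
    rcases h1 with h1 | h1
    · exact absurd h1 h2
    · rw [edge_adj] at h1
      rcases h1.1 with h | h
      · exact Or.inl h
      · exact Or.inr h
  let ι : G.Subgraph → G'.Subgraph := fun S =>
    { verts := S.verts
      Adj := S.Adj
      adj_sub := fun h => hle (S.adj_sub h)
      edge_vert := fun h => S.edge_vert h
      symm := S.symm }
  have hιinj : Function.Injective ι := by
    intro S S' h
    have h1 : (ι S).verts = (ι S').verts := by rw [h]
    have h2 : (ι S).Adj = (ι S').Adj := by rw [h]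
    exact Subgraph.ext h1 h2
  let A : Finset G.Subgraph := {S : G.Subgraph | Nonempty (H ≃g S.coe)}
  let B : Finset G'.Subgraph := {S : G'.Subgraph | Nonempty (H ≃g S.coe)}
  have hA : G.copyCount H = A.card := by
    simp only [copyCount, A]
  have hB : G'.copyCount H = B.card := by
    simp only [copyCount, B]
    apply congrArg
    ext S
    simp only [Finset.mem_filter, Finset.mem_univ]
  have himg : A.image ι ⊆ B := by
    intro S' hS'
    rw [Finset.mem_image] at hS'
    obtain ⟨S, hS, rfl⟩ := hS'
    simp only [A, B, Finset.mem_filter, Finset.mem_univ, true_and] at hS ⊢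
    obtain ⟨e⟩ := hS
    exact ⟨⟨e.toEquiv, fun {a b} => e.map_rel_iff⟩⟩
  have hcard : (A.image ι).card = A.card := Finset.card_image_of_injective _ hιinj
  rw [hA, hB]
  constructor
  · intro hlt
    have hne : ∃ S' ∈ B, S' ∉ A.image ι := by
      by_contra hcon
      push Not at hcon
      have : B ⊆ A.image ι := hcon
      have := Finset.card_le_card this
      omega
    obtain ⟨S', hS'B, hS'A⟩ := hne
    have hS'adj : S'.Adj u v := by
      by_contra hcon
      apply hS'A
      rw [Finset.mem_image]
      have hsub : ∀ {x y}, S'.Adj x y → G.Adj x y := by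
        intro x y hxy
        by_contra hg
        rcases hadj' x y (S'.adj_sub hxy) hg with ⟨rfl, rfl⟩ | ⟨rfl, rfl⟩
        · exact hcon hxy
        · exact hcon hxy.symm
      refine ⟨{ verts := S'.verts, Adj := S'.Adj, adj_sub := fun h => hsub h,
                edge_vert := fun h => S'.edge_vert h, symm := S'.symm }, ?_, ?_⟩
      · simp only [A, B, Finset.mem_filter, Finset.mem_univ, true_and] at hS'B ⊢
        obtain ⟨e⟩ := hS'B
        exact ⟨⟨e.toEquiv, fun {a b} => e.map_rel_iff⟩⟩
      · rfl
    simp only [B, Finset.mem_filter, Finset.mem_univ, true_and] at hS'B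
    obtain ⟨e⟩ := hS'B
    refine ⟨⟨S'.hom.comp e.toHom, ?_⟩, e.symm ⟨u, S'.edge_vert hS'adj⟩,
      e.symm ⟨v, S'.edge_vert hS'adj.symm⟩, ?_, ?_, ?_⟩
    · exact Subgraph.hom_injective.comp e.injective
    · rw [e.symm.map_adj_iff]
      exact hS'adj
    · change S'.hom (e (e.symm _)) = u
      rw [RelIso.apply_symm_apply]
      rfl
    · change S'.hom (e (e.symm _)) = v
      rw [RelIso.apply_symm_apply]
      rfl
  · rintro ⟨f, a, b, hab, hfa, hfb⟩
    have hmem : f.toSubgraph ∈ B := by
      simp only [B, Finset.mem_filter, Finset.mem_univ, true_and]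
      exact ⟨f.isoToSubgraph⟩
    have hnot : f.toSubgraph ∉ A.image ι := by
      intro hcon
      rw [Finset.mem_image] at hcon
      obtain ⟨S, _, hS⟩ := hcon
      have h1 : f.toSubgraph.Adj u v := by
        rw [Copy.toSubgraph, Subgraph.map_adj, Relation.map_apply]
        exact ⟨a, b, by simpa using hab, hfa, hfb⟩
      rw [← hS] at h1
      exact hn (S.adj_sub h1)
    rw [← hcard]
    apply Finset.card_lt_card
    rw [Finset.ssubset_iff_of_subset himg]
    exact ⟨_, hmem, hnot⟩

lemma step_adj_iff (G : SimpleGraph V) (H : SimpleGraph W) (u v : V) :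
    (step H G).Adj u v ↔ G.Adj u v ∨ (u ≠ v ∧ ¬ G.Adj u v ∧
      ∃ f : Copy H (G ⊔ edge u v), ∃ a b, H.Adj a b ∧ f a = u ∧ f b = v) := by
  change (G.Adj u v ∨ (u ≠ v ∧ G.copyCount H < (G ⊔ edge u v).copyCount H)) ↔ _
  by_cases h : G.Adj u v
  · simp [h]
  · by_cases huv : u = v
    · simp [huv]
    · simp only [h, false_or, ne_eq, huv, not_false_eq_true, true_and]
      exact copyCount_lt_iff G H huv h

lemma le_step (H : SimpleGraph W) (G : SimpleGraph V) : G ≤ step H G := by
  intro u v h
  exact Or.inl h

lemma step_mono (H : SimpleGraph W) {G G' : SimpleGraph V} (h : G ≤ G') :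
    step H G ≤ step H G' := by
  intro u v huv
  rw [step_adj_iff] at huv ⊢
  rcases huv with huv | ⟨h1, h2, f, a, b, hab, hfa, hfb⟩
  · exact Or.inl (h huv)
  · by_cases h3 : G'.Adj u v
    · exact Or.inl h3
    · refine Or.inr ⟨h1, h3, (Copy.ofLE _ _ (sup_le_sup_right h _)).comp f, a, b, hab, ?_, ?_⟩
      · simpa using hfa
      · simpa using hfb

/-- The main tool to show that a pair gets infected. -/
lemma step_adj_of_map (G : SimpleGraph V) (H : SimpleGraph W) (f : W → V)
    (hf : Function.Injective f) (a b : W) (hab : H.Adj a b)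
    (h : ∀ c d, H.Adj c d → G.Adj (f c) (f d) ∨ s(c, d) = s(a, b)) :
    (step H G).Adj (f a) (f b) := by
  rw [step_adj_iff]
  by_cases hG : G.Adj (f a) (f b)
  · exact Or.inl hG
  · refine Or.inr ⟨fun e => hab.ne (hf e), hG, ⟨⟨f, ?_⟩, hf⟩, a, b, hab, rfl, rfl⟩
    intro c d hcd
    rw [sup_adj, edge_adj]
    rcases h c d hcd with h1 | h1
    · exact Or.inl h1
    · right
      refine ⟨?_, fun e => hcd.ne (hf e)⟩
      rcases Sym2.eq_iff.1 h1 with ⟨h2, h3⟩ | ⟨h2, h3⟩
      · exact Or.inl ⟨by rw [h2], by rw [h3]⟩
      · exact Or.inr ⟨by rw [h2], by rw [h3]⟩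

lemma process_zero (H : SimpleGraph W) (G : SimpleGraph V) : process H G 0 = G := rfl

lemma process_succ (H : SimpleGraph W) (G : SimpleGraph V) (i : ℕ) :
    process H G (i + 1) = step H (process H G i) := by
  unfold process
  rw [Function.iterate_succ_apply']

lemma process_add (H : SimpleGraph W) (G : SimpleGraph V) (i j : ℕ) :
    process H G (i + j) = process H (process H G i) j := by
  unfold process
  rw [add_comm, Function.iterate_add_apply]

lemma process_le_succ (H : SimpleGraph W) (G : SimpleGraph V) (i : ℕ) :
    process H G i ≤ process H G (i + 1) := by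
  rw [process_succ]
  exact le_step _ _

lemma process_mono_time (H : SimpleGraph W) (G : SimpleGraph V) {i j : ℕ} (h : i ≤ j) :
    process H G i ≤ process H G j :=
  monotone_nat_of_le_succ (process_le_succ H G) h

lemma process_mono (H : SimpleGraph W) {G G' : SimpleGraph V} (h : G ≤ G') (i : ℕ) :
    process H G i ≤ process H G' i := by
  induction i with
  | zero => exact h
  | succ i ih =>
    rw [process_succ, process_succ]
    exact step_mono H ih

lemma process_stable (H : SimpleGraph W) (G : SimpleGraph V) {t : ℕ}
    (h : process H G t = process H G (t + 1)) (j : ℕ) : process H G (t + j) = process H G t := by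
  induction j with
  | zero => rfl
  | succ j ih =>
    rw [← add_assoc, process_succ, ih, ← process_succ, ← h]

lemma exists_stable (H : SimpleGraph W) (G : SimpleGraph V) :
    ∃ t, process H G t = process H G (t + 1) := by
  classical
  by_contra hcon
  push Not at hcon
  have hlt : ∀ t, (process H G t).edgeFinset.card < (process H G (t + 1)).edgeFinset.card := by
    intro t
    apply Finset.card_lt_card
    rw [edgeFinset_ssubset_edgeFinset]
    exact lt_of_le_of_ne (process_le_succ H G t) (hcon t)
  have hge : ∀ t, t ≤ (process H G t).edgeFinset.card := by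
    intro t
    induction t with
    | zero => exact Nat.zero_le _
    | succ t ih => have := hlt t; omega
  have h1 := hge (Fintype.card (Sym2 V) + 1)
  have h2 := Finset.card_le_univ (process H G (Fintype.card (Sym2 V) + 1)).edgeFinset
  omega

lemma runningTime_spec (H : SimpleGraph W) (G : SimpleGraph V) :
    process H G (runningTime H G) = process H G (runningTime H G + 1) :=
  Nat.sInf_mem (s := {t : ℕ | process H G t = process H G (t + 1)}) (exists_stable H G)

lemma runningTime_le (H : SimpleGraph W) (G : SimpleGraph V) {t : ℕ}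
    (h : process H G t = process H G (t + 1)) : runningTime H G ≤ t :=
  Nat.sInf_le h

lemma le_runningTime (H : SimpleGraph W) (G : SimpleGraph V) {T : ℕ}
    (h : ∀ t < T, process H G t ≠ process H G (t + 1)) : T ≤ runningTime H G := by
  by_contra hcon
  push Not at hcon
  exact h _ hcon (runningTime_spec H G)

lemma runningTime_le_of_top (H : SimpleGraph W) (G : SimpleGraph V) {t : ℕ}
    (h : process H G t = ⊤) : runningTime H G ≤ t := by
  apply runningTime_le
  apply le_antisymm (process_le_succ H G t)
  rw [h]
  exact le_top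

lemma process_le_final (H : SimpleGraph W) (G : SimpleGraph V) (t : ℕ) :
    process H G t ≤ process H G (runningTime H G) := by
  rcases le_total t (runningTime H G) with h | h
  · exact process_mono_time H G h
  · obtain ⟨j, rfl⟩ := Nat.exists_eq_add_of_le h
    rw [process_stable H G (runningTime_spec H G)]

/-! ### Transport along a bijection of the vertex set -/

lemma step_map_equiv {V' : Type} [Fintype V'] (H : SimpleGraph W) (G : SimpleGraph V)
    (e : V ≃ V') : step H (G.map e.toEmbedding) = (step H G).map e.toEmbedding := by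
  ext u v
  obtain ⟨u, rfl⟩ := e.surjective u
  obtain ⟨v, rfl⟩ := e.surjective v
  have key : ∀ (K : SimpleGraph V) (x y : V),
      (K.map e.toEmbedding).Adj (e x) (e y) ↔ K.Adj x y := fun K x y =>
    SimpleGraph.map_adj_apply (f := e.toEmbedding)
  rw [key, step_adj_iff, step_adj_iff, key]
  refine or_congr Iff.rfl (and_congr (by simp) (and_congr Iff.rfl ?_))
  constructor
  · rintro ⟨f, a, b, hab, hfa, hfb⟩
    refine ⟨⟨⟨fun x => e.symm (f x), ?_⟩, ?_⟩, a, b, hab, ?_, ?_⟩
    · intro c d hcd
      have h1 := f.toHom.map_adj hcd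
      simp only [Copy.toHom_apply] at h1
      rw [sup_adj, edge_adj] at h1 ⊢
      rcases h1 with h1 | h1
      · left
        rw [← key G]
        simpa using h1
      · right
        refine ⟨?_, ?_⟩
        · rcases h1.1 with ⟨h2, h3⟩ | ⟨h2, h3⟩
          · left
            rw [h2, h3]; simp
          · right
            rw [h2, h3]; simp
        · intro h2
          exact h1.2 (e.symm.injective h2)
    · intro x y hxy
      exact f.injective (e.symm.injective hxy)
    · change e.symm (f a) = u
      rw [hfa]; simp
    · change e.symm (f b) = v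
      rw [hfb]; simp
  · rintro ⟨f, a, b, hab, hfa, hfb⟩
    refine ⟨⟨⟨fun x => e (f x), ?_⟩, ?_⟩, a, b, hab, ?_, ?_⟩
    · intro c d hcd
      have h1 := f.toHom.map_adj hcd
      simp only [Copy.toHom_apply] at h1
      rw [sup_adj, edge_adj] at h1 ⊢
      rcases h1 with h1 | h1
      · left
        rw [key G]
        exact h1
      · right
        refine ⟨?_, ?_⟩
        · rcases h1.1 with ⟨h2, h3⟩ | ⟨h2, h3⟩
          · left
            rw [h2, h3]; simp
          · right
            rw [h2, h3]; simp
        · intro h2
          exact h1.2 (e.injective h2)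
    · intro x y hxy
      exact f.injective (e.injective hxy)
    · change e (f a) = e u
      rw [hfa]
    · change e (f b) = e v
      rw [hfb]

lemma process_map_equiv {V' : Type} [Fintype V'] (H : SimpleGraph W) (G : SimpleGraph V)
    (e : V ≃ V') (i : ℕ) :
    process H (G.map e.toEmbedding) i = (process H G i).map e.toEmbedding := by
  induction i with
  | zero => rfl
  | succ i ih => rw [process_succ, process_succ, ih, step_map_equiv]

lemma runningTime_map_equiv {V' : Type} [Fintype V'] (H : SimpleGraph W) (G : SimpleGraph V)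
    (e : V ≃ V') : runningTime H (G.map e.toEmbedding) = runningTime H G := by
  unfold runningTime
  congr 1
  ext t
  simp only [Set.mem_ofPred_eq]
  rw [process_map_equiv, process_map_equiv]
  exact (SimpleGraph.map_injective e.toEmbedding).eq_iff

lemma le_maxTime (H : SimpleGraph W) {n : ℕ} (G : SimpleGraph (Fin n)) :
    runningTime H G ≤ maxTime H n := by
  apply le_csSup
  · exact (Set.finite_range (fun G : SimpleGraph (Fin n) => runningTime H G)).bddAbove
  · exact ⟨G, rfl⟩

lemma le_maxTime' (H : SimpleGraph W) {n : ℕ} (hn : Fintype.card V = n) (G : SimpleGraph V) :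
    runningTime H G ≤ maxTime H n := by
  rw [← runningTime_map_equiv H G (Fintype.equivFinOfCardEq hn)]
  exact le_maxTime H _

lemma maxPercTime_le (H : SimpleGraph W) {n T : ℕ}
    (h : ∀ G : SimpleGraph (Fin n), Percolates H G → runningTime H G ≤ T) :
    maxPercTime H n ≤ T := by
  unfold maxPercTime
  rcases Set.eq_empty_or_nonempty
    {t : ℕ | ∃ G : SimpleGraph (Fin n), Percolates H G ∧ runningTime H G = t} with h0 | h0
  · rw [h0]; simp
  · apply csSup_le h0
    rintro t ⟨G, hG, rfl⟩
    exact h G hG

end Pool.Agent.MP_000f96_co
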