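import Pool.Agent.MP_000f96_co.Arith

/-!
The union of the blocks `{p_s, p_{s+1}, q_s, q_{s+1}, r_s}`, where `p`, `q`, `r` run around three
cycles: every `K_5` minus at most one edge in it is a block.
-/

namespace Pool.Agent.MP_000f96_co

/-- Vertices of the three cycles. -/
abbrev Mn (l : ℕ) : Type := (i : Fin 3) × Fin (NN l i)

/-- The position on its cycle. -/
def co {l : ℕ} (v : Mn l) : ℤ := (v.2.1 : ℤ)

/-- Width of a block on a cycle. -/
def wid : Fin 3 → ℤ := ![1, 1, 0]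

/-- `v` belongs to the block of time `s`. -/
def inB {l : ℕ} (s : ℤ) (v : Mn l) : Prop :=
  ∃ e : ℤ, 0 ≤ e ∧ e ≤ wid v.1 ∧ (NN l v.1 : ℤ) ∣ s + e - co v

/-- Two vertices lie in a common block. -/
def Fs {l : ℕ} (u v : Mn l) : Prop :=
  u ≠ v ∧ ∃ s : ℤ, 0 ≤ s ∧ s < TT l ∧ inB s u ∧ inB s v

lemma Fs.symm {l : ℕ} {u v : Mn l} (h : Fs u v) : Fs v u := by
  obtain ⟨h1, s, h2, h3, h4, h5⟩ := h
  exact ⟨h1.symm, s, h2, h3, h5, h4⟩

lemma wid_le (i : Fin 3) : wid i ≤ 1 := by fin_cases i <;> simp [wid]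

lemma wid_two : wid 2 = 0 := rfl

lemma NN_ge {l : ℕ} (hl : 1 ≤ l) (i : Fin 3) : 10 ≤ NN l i := by
  have : 1 ≤ l ^ 2 := Nat.one_le_pow _ _ hl
  fin_cases i <;> simp [NN] <;> nlinarith

lemma small_dvd {l : ℕ} (hl : 1 ≤ l) {i : Fin 3} {k : ℤ} (h : (NN l i : ℤ) ∣ k)
    (h1 : -9 ≤ k) (h2 : k ≤ 9) : k = 0 := by
  have hN : (10 : ℤ) ≤ (NN l i : ℤ) := by exact_mod_cast NN_ge hl i
  apply Int.eq_zero_of_abs_lt_dvd h
  rw [abs_lt]
  constructor <;> linarith

lemma ext_of_dvd {l : ℕ} {u v : Mn l} (ht : u.1 = v.1)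
    (h : (NN l u.1 : ℤ) ∣ co u - co v) : u = v := by
  obtain ⟨i, a⟩ := u
  obtain ⟨j, b⟩ := v
  simp only at ht
  subst ht
  simp only [co] at h
  have ha : ((a : ℕ) : ℤ) < (NN l i : ℤ) := by exact_mod_cast a.2
  have hb : ((b : ℕ) : ℤ) < (NN l i : ℤ) := by exact_mod_cast b.2
  have h0 : ((a : ℕ) : ℤ) - (b : ℕ) = 0 := by
    apply Int.eq_zero_of_abs_lt_dvd h
    rw [abs_lt]
    constructor <;> omega
  have : a = b := by
    apply Fin.ext
    omega
  rw [this]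

lemma adj_same {l : ℕ} {u v : Mn l} (h : Fs u v) (ht : u.1 = v.1) :
    ∃ e : ℤ, (e = 1 ∨ e = -1) ∧ (NN l u.1 : ℤ) ∣ co u - co v - e := by
  obtain ⟨hne, s, -, -, ⟨a, ha, ha', hau⟩, ⟨b, hb, hb', hbv⟩⟩ := h
  rw [← ht] at hbv
  have h1 := wid_le u.1
  have h2 := wid_le v.1
  have hd : (NN l u.1 : ℤ) ∣ co u - co v - (a - b) := by
    have := dvd_sub hbv hau
    convert! this using 1; ring
  have hab : a - b ≠ 0 := by
    intro h0
    rw [h0, sub_zero] at hd
    exact hne (ext_of_dvd ht hd)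
  refine ⟨a - b, by omega, hd⟩

lemma no_RR {l : ℕ} {u v : Mn l} (h : Fs u v) (hu : u.1 = 2) (hv : v.1 = 2) : False := by
  obtain ⟨hne, s, -, -, ⟨a, ha, ha', hau⟩, ⟨b, hb, hb', hbv⟩⟩ := h
  rw [hu, wid_two] at ha'
  rw [hv, wid_two] at hb'
  have h0 : a = 0 := by omega
  have h1 : b = 0 := by omega
  subst h0 h1
  rw [hv, ← hu] at hbv
  apply hne
  apply ext_of_dvd (hu.trans hv.symm)
  have := dvd_sub hbv hau
  convert! this using 1; ring

lemma no_tri {l : ℕ} (hl : 1 ≤ l) {a b c : Mn l} (hab : Fs a b) (hbc : Fs b c) (hac : Fs a c)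
    (h1 : a.1 = b.1) (h2 : a.1 = c.1) : False := by
  obtain ⟨e1, he1, d1⟩ := adj_same hab h1
  obtain ⟨e2, he2, d2⟩ := adj_same hbc (h1.symm.trans h2)
  obtain ⟨e3, he3, d3⟩ := adj_same hac h2
  rw [← h1] at d2
  have hd : (NN l a.1 : ℤ) ∣ e3 - e1 - e2 := by
    have := dvd_sub (dvd_add d1 d2) d3
    convert! this using 1; ring
  have := small_dvd hl hd (by omega) (by omega)
  omega

/-- Two vertices adjacent to a vertex of the third cycle and to each other use the same block. -/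
lemma sameTime {l : ℕ} (hl : 1 ≤ l) {r x y : Mn l} (hr : r.1 = 2) (hx : x.1 ≠ 2) (hy : y.1 ≠ 2)
    {s t : ℤ} (hs : 0 ≤ s) (hs' : s ≤ TT l) (ht : 0 ≤ t) (ht' : t ≤ TT l)
    (h1 : inB s r) (h2 : inB s x) (h3 : inB t r) (h4 : inB t y) (hxy : Fs x y) : s = t := by
  obtain ⟨-, m, hm, hm', ⟨a, ha, ha', hax⟩, ⟨b, hb, hb', hby⟩⟩ := hxy
  obtain ⟨c, hc, hc', hcr⟩ := h1
  obtain ⟨d, hd, hd', hdx⟩ := h2
  obtain ⟨e, he, he', her⟩ := h3
  obtain ⟨f, hf, hf', hfy⟩ := h4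
  rw [hr, wid_two] at hc' he'
  have hc0 : c = 0 := by omega
  have he0 : e = 0 := by omega
  subst hc0 he0
  have w1 := wid_le x.1
  have w2 := wid_le y.1
  rw [hr] at hcr her
  have k1 : (NN l x.1 : ℤ) ∣ s - m - (a - d) := by
    have := dvd_sub hdx hax
    convert! this using 1; ring
  have k2 : (NN l y.1 : ℤ) ∣ m - t - (f - b) := by
    have := dvd_sub hby hfy
    convert! this using 1; ring
  have k3 : (NN l 2 : ℤ) ∣ t - s - 0 := by
    have := dvd_sub her hcr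
    convert! this using 1; ring
  by_cases hxy' : x.1 = y.1
  · rw [← hxy'] at k2
    have k4 : (NN l x.1 : ℤ) ∣ s - t - (a - d + (f - b)) := by
      have := dvd_add k1 k2
      convert! this using 1; ring
    have k5 : (NN l 2 : ℤ) ∣ s - t - 0 := by
      have := (dvd_neg (α := ℤ)).2 k3
      convert! this using 1; ring
    have := sep2 l hl x.1 2 hx s t _ _ hs hs' ht ht' (by omega) (by omega) (by omega)
      (by omega) k4 k5
    omega
  · have hx01 : x.1 = 0 ∨ x.1 = 1 := by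
      have : ∀ i : Fin 3, i ≠ 2 → i = 0 ∨ i = 1 := by decide
      exact this _ hx
    rcases hx01 with hx0 | hx1
    · have hy1 : y.1 = 1 := by
        have : ∀ i j : Fin 3, i ≠ j → i = 0 → j ≠ 2 → j = 1 := by decide
        exact this _ _ hxy' hx0 hy
      rw [hx0] at k1
      rw [hy1] at k2
      have := sep3 l hl s m t _ _ _ hs hs' hm hm'.le ht ht' (by omega) (by omega) (by omega)
        (by omega) (by omega) (by omega) k1 k2 k3
      omega
    · have hy0 : y.1 = 0 := by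
        have : ∀ i j : Fin 3, i ≠ j → i = 1 → j ≠ 2 → j = 0 := by decide
        exact this _ _ hxy' hx1 hy
      rw [hx1] at k1
      rw [hy0] at k2
      have k1' : (NN l 1 : ℤ) ∣ m - s - (d - a) := by
        have := (dvd_neg (α := ℤ)).2 k1
        convert! this using 1; ring
      have k2' : (NN l 0 : ℤ) ∣ t - m - (b - f) := by
        have := (dvd_neg (α := ℤ)).2 k2
        convert! this using 1; ring
      have k3' : (NN l 2 : ℤ) ∣ s - t - 0 := by
        have := (dvd_neg (α := ℤ)).2 k3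
        convert! this using 1; ring
      have := sep3 l hl t m s _ _ _ ht ht' hm hm'.le hs hs' (by omega) (by omega) (by omega)
        (by omega) (by omega) (by omega) k2' k1' k3'
      omega

/-- Case: one of the three fully adjacent vertices lies on the third cycle. -/
lemma five_R {l : ℕ} (hl : 1 ≤ l) {u v x y z : Mn l} (hz : z.1 = 2)
    (hxy : Fs x y) (hxz : Fs x z) (hyz : Fs y z) (hux : Fs u x) (huz : Fs u z)
    (hvx : Fs v x) (hvz : Fs v z) :
    ∃ s : ℤ, 0 ≤ s ∧ s < TT l ∧ inB s u ∧ inB s v ∧ inB s x ∧ inB s y ∧ inB s z := by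
  have hx : x.1 ≠ 2 := fun h => no_RR hxz h hz
  have hy : y.1 ≠ 2 := fun h => no_RR hyz h hz
  have hu : u.1 ≠ 2 := fun h => no_RR huz h hz
  have hv : v.1 ≠ 2 := fun h => no_RR hvz h hz
  obtain ⟨-, s, hs, hs', sx, sz⟩ := hxz
  obtain ⟨-, t, ht, ht', ty, tz⟩ := hyz
  obtain ⟨-, p, hp, hp', pu, pz⟩ := huz
  obtain ⟨-, q, hq, hq', qv, qz⟩ := hvz
  have e1 : s = t := sameTime hl hz hx hy hs hs'.le ht ht'.le sz sx tz ty hxy
  have e2 : p = s := sameTime hl hz hu hx hp hp'.le hs hs'.le pz pu sz sx hux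
  have e3 : q = s := sameTime hl hz hv hx hq hq'.le hs hs'.le qz qv sz sx hvx
  subst e1 e2 e3
  exact ⟨_, hs, hs', pu, qv, sx, ty, sz⟩

lemma fin3_other (i j k : Fin 3) (h1 : i ≠ 2) (h2 : j ≠ 2) (h3 : k ≠ 2) (h4 : i ≠ j)
    (h5 : i ≠ k) : j = k := by
  omega

/-- Case: one of the two possibly non-adjacent vertices lies on the third cycle. -/
lemma five_U {l : ℕ} (hl : 1 ≤ l) {u v x y z : Mn l} (huv : u ≠ v) (hu : u.1 = 2)
    (hxt : x.1 = y.1)
    (hxy : Fs x y) (hxz : Fs x z) (hyz : Fs y z) (hux : Fs u x) (huy : Fs u y) (huz : Fs u z)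
    (hvx : Fs v x) (hvy : Fs v y) (hvz : Fs v z) :
    ∃ s : ℤ, 0 ≤ s ∧ s < TT l ∧ inB s u ∧ inB s v ∧ inB s x ∧ inB s y ∧ inB s z := by
  have hx2 : x.1 ≠ 2 := fun h => no_RR hux hu h
  have hy2 : y.1 ≠ 2 := fun h => no_RR huy hu h
  have hz2 : z.1 ≠ 2 := fun h => no_RR huz hu h
  have hxz1 : x.1 ≠ z.1 := fun h => no_tri hl hxy hyz hxz hxt h
  obtain ⟨s, hs, hs', su, -, sx, sy, sz⟩ := five_R (u := x) (v := x) hl hu hyz huy.symm huz.symm
    hxy hux.symm hxy hux.symm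
  -- (the lemma returns data for `y`, `z`, `x`)
  obtain ⟨e, he, he', hex⟩ : inB s x := su
  obtain ⟨f, hf, hf', hfy⟩ : inB s y := sx
  obtain ⟨g, hg, hg', hgz⟩ : inB s z := sy
  obtain ⟨c, hc, hc', hcu⟩ : inB s u := sz
  have w1 := wid_le x.1
  have w2 := wid_le y.1
  have w3 := wid_le z.1
  have hef : e ≠ f := by
    rintro rfl
    rw [← hxt] at hfy
    apply hxy.1
    apply ext_of_dvd hxt
    have := dvd_sub hfy hex
    convert! this using 1; ring
  by_cases hv : v.1 = 2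
  · exfalso
    obtain ⟨t, ht, ht', tx, -, ty, tz, tv⟩ := five_R (u := x) (v := x) hl hv hyz hvy.symm
      hvz.symm hxy hvx.symm hxy hvx.symm
    obtain ⟨e', he1, he1', hex'⟩ : inB t x := tx
    obtain ⟨f', hf1, hf1', hfy'⟩ : inB t y := ty
    obtain ⟨g', hg1, hg1', hgz'⟩ : inB t z := tz
    obtain ⟨c', hc1, hc1', hcv'⟩ : inB t v := tv
    have hef' : e' ≠ f' := by
      rintro rfl
      rw [← hxt] at hfy'
      apply hxy.1
      apply ext_of_dvd hxt
      have := dvd_sub hfy' hex'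
      convert! this using 1; ring
    have k1 : (NN l x.1 : ℤ) ∣ s - t - (e' - e) := by
      have := dvd_sub hex hex'
      convert! this using 1; ring
    have k2 : (NN l x.1 : ℤ) ∣ s - t - (f' - f) := by
      rw [← hxt] at hfy hfy'
      have := dvd_sub hfy hfy'
      convert! this using 1; ring
    have k3 : (NN l z.1 : ℤ) ∣ s - t - (g' - g) := by
      have := dvd_sub hgz hgz'
      convert! this using 1; ring
    have r1 := sep2 l hl x.1 z.1 hxz1 s t _ _ hs hs'.le ht ht'.le (by omega) (by omega)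
      (by omega) (by omega) k1 k3
    have r2 := sep2 l hl x.1 z.1 hxz1 s t _ _ hs hs'.le ht ht'.le (by omega) (by omega)
      (by omega) (by omega) k2 k3
    have hst : s = t := by omega
    subst hst
    rw [hu, wid_two] at hc'
    rw [hv, wid_two] at hc1'
    have hc0 : c = 0 := by omega
    have hc0' : c' = 0 := by omega
    subst hc0 hc0'
    rw [hv, ← hu] at hcv'
    apply huv
    apply ext_of_dvd (hu.trans hv.symm)
    have := dvd_sub hcv' hcu
    convert! this using 1; ring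
  · have hvx1 : x.1 ≠ v.1 := fun h => no_tri hl hvx hxy hvy h.symm (h.symm.trans hxt)
    have hvz1 : v.1 = z.1 := fin3_other x.1 v.1 z.1 hx2 hv hz2 hvx1 hxz1
    obtain ⟨m, hm, hmd⟩ := adj_same hvz hvz1
    obtain ⟨-, t, ht, ht', ⟨b, hb, hb', hbv⟩, ⟨a, ha, ha', hax⟩⟩ := hvx
    obtain ⟨-, q, hq, hq', ⟨d, hd, hd', hdv⟩, ⟨h, hh, hh', hhy⟩⟩ := hvy
    have w4 := wid_le v.1
    rw [← hvz1] at hgz
    have kv : (NN l v.1 : ℤ) ∣ s + (g + m) - co v := by
      have := dvd_sub hgz hmd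
      convert! this using 1; ring
    have k1 : (NN l x.1 : ℤ) ∣ t - s - (e - a) := by
      have := dvd_sub hax hex
      convert! this using 1; ring
    have k2 : (NN l v.1 : ℤ) ∣ t - s - (g + m - b) := by
      have := dvd_sub hbv kv
      convert! this using 1; ring
    have r1 := sep2 l hl x.1 v.1 hvx1 t s _ _ ht ht'.le hs hs'.le (by omega) (by omega)
      (by omega) (by omega) k1 k2
    rw [← hxt] at hhy hfy
    have k3 : (NN l x.1 : ℤ) ∣ q - s - (f - h) := by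
      have := dvd_sub hhy hfy
      convert! this using 1; ring
    have k4 : (NN l v.1 : ℤ) ∣ q - s - (g + m - d) := by
      have := dvd_sub hdv kv
      convert! this using 1; ring
    have r2 := sep2 l hl x.1 v.1 hvx1 q s _ _ hq hq'.le hs hs'.le (by omega) (by omega)
      (by omega) (by omega) k3 k4
    have hw : wid v.1 = 1 := by
      have : ∀ i : Fin 3, i ≠ 2 → wid i = 1 := by
        intro i; fin_cases i <;> simp [wid]
      exact this _ hv
    refine ⟨s, hs, hs', ⟨c, hc, hc', hcu⟩, ⟨g + m, by omega, by omega, kv⟩,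
      ⟨e, he, he', hex⟩, ⟨f, hf, hf', ?_⟩, ⟨g, hg, hg', ?_⟩⟩
    · rw [← hxt]; exact hfy
    · rw [← hvz1]; exact hgz

/-- Case: no vertex on the third cycle is impossible. -/
lemma five_N {l : ℕ} (hl : 1 ≤ l) {u v x y z : Mn l} (huv : u ≠ v) (hxt : x.1 = y.1)
    (hx2 : x.1 ≠ 2) (hz2 : z.1 ≠ 2) (hu2 : u.1 ≠ 2) (hv2 : v.1 ≠ 2)
    (hxy : Fs x y) (hxz : Fs x z) (hyz : Fs y z) (hux : Fs u x) (huy : Fs u y) (huz : Fs u z)
    (hvx : Fs v x) (hvy : Fs v y) (hvz : Fs v z) : False := by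
  have hxz1 : x.1 ≠ z.1 := fun h => no_tri hl hxy hyz hxz hxt h
  have hxu1 : x.1 ≠ u.1 := fun h => no_tri hl hux hxy huy h.symm (h.symm.trans hxt)
  have hxv1 : x.1 ≠ v.1 := fun h => no_tri hl hvx hxy hvy h.symm (h.symm.trans hxt)
  have huz1 : u.1 = z.1 := fin3_other x.1 u.1 z.1 hx2 hu2 hz2 hxu1 hxz1
  have hvz1 : v.1 = z.1 := fin3_other x.1 v.1 z.1 hx2 hv2 hz2 hxv1 hxz1
  obtain ⟨eu, heu, deu⟩ := adj_same huz huz1
  obtain ⟨ev, hev, dev⟩ := adj_same hvz hvz1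
  obtain ⟨e, he, de⟩ := adj_same hxy hxt
  have hvu1 : v.1 = u.1 := hvz1.trans huz1.symm
  rw [hvu1] at dev
  have duv : (NN l u.1 : ℤ) ∣ co u - co v - (eu - ev) := by
    have := dvd_sub deu dev
    convert! this using 1; ring
  have hne : eu ≠ ev := by
    rintro rfl
    rw [sub_self, sub_zero] at duv
    exact huv (ext_of_dvd hvu1.symm duv)
  obtain ⟨-, t1, ht1, ht1', ⟨b1, hb1, hb1', hb1v⟩, ⟨a1, ha1, ha1', ha1v⟩⟩ := hux
  obtain ⟨-, t2, ht2, ht2', ⟨b2, hb2, hb2', hb2v⟩, ⟨a2, ha2, ha2', ha2v⟩⟩ := hvx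
  obtain ⟨-, t3, ht3, ht3', ⟨b3, hb3, hb3', hb3v⟩, ⟨a3, ha3, ha3', ha3v⟩⟩ := huy
  obtain ⟨-, t4, ht4, ht4', ⟨b4, hb4, hb4', hb4v⟩, ⟨a4, ha4, ha4', ha4v⟩⟩ := hvy
  have w1 := wid_le x.1
  have w2 := wid_le y.1
  have w3 := wid_le u.1
  have w4 := wid_le v.1
  rw [hvu1] at hb2v hb4v
  rw [← hxt] at ha3v ha4v
  have k1 : (NN l x.1 : ℤ) ∣ t1 - t2 - (a2 - a1) := by
    have := dvd_sub ha1v ha2v
    convert! this using 1; ring
  have k2 : (NN l u.1 : ℤ) ∣ t1 - t2 - (eu - ev + b2 - b1) := by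
    have := dvd_add (dvd_sub hb1v hb2v) duv
    convert! this using 1; ring
  have r1 := sep2 l hl x.1 u.1 hxu1 t1 t2 _ _ ht1 ht1'.le ht2 ht2'.le (by omega) (by omega)
    (by omega) (by omega) k1 k2
  have k3 : (NN l x.1 : ℤ) ∣ t3 - t4 - (a4 - a3) := by
    have := dvd_sub ha3v ha4v
    convert! this using 1; ring
  have k4 : (NN l u.1 : ℤ) ∣ t3 - t4 - (eu - ev + b4 - b3) := by
    have := dvd_add (dvd_sub hb3v hb4v) duv
    convert! this using 1; ring
  have r2 := sep2 l hl x.1 u.1 hxu1 t3 t4 _ _ ht3 ht3'.le ht4 ht4'.le (by omega) (by omega)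
    (by omega) (by omega) k3 k4
  have k5 : (NN l x.1 : ℤ) ∣ t1 - t3 - (e + a3 - a1) := by
    have := dvd_add (dvd_sub ha1v ha3v) de
    convert! this using 1; ring
  have k6 : (NN l u.1 : ℤ) ∣ t1 - t3 - (b3 - b1) := by
    have := dvd_sub hb1v hb3v
    convert! this using 1; ring
  have r3 := sep2 l hl x.1 u.1 hxu1 t1 t3 _ _ ht1 ht1'.le ht3 ht3'.le (by omega) (by omega)
    (by omega) (by omega) k5 k6
  omega

lemma fin3_pigeon (i j k : Fin 3) (h1 : i ≠ 2) (h2 : j ≠ 2) (h3 : k ≠ 2) :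
    i = j ∨ i = k ∨ j = k := by
  omega

/-- **Key lemma.** A `K_5` minus at most the edge `uv` in the union of the blocks is a block. -/
theorem five {l : ℕ} (hl : 1 ≤ l) {u v x y z : Mn l} (huv : u ≠ v)
    (hxy : Fs x y) (hxz : Fs x z) (hyz : Fs y z) (hux : Fs u x) (huy : Fs u y) (huz : Fs u z)
    (hvx : Fs v x) (hvy : Fs v y) (hvz : Fs v z) :
    ∃ s : ℤ, 0 ≤ s ∧ s < TT l ∧ inB s u ∧ inB s v ∧ inB s x ∧ inB s y ∧ inB s z := by
  by_cases hz : z.1 = 2
  · exact five_R hl hz hxy hxz hyz hux huz hvx hvz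
  by_cases hy : y.1 = 2
  · obtain ⟨s, h1, h2, h3, h4, h5, h6, h7⟩ :=
      five_R (x := x) (y := z) hl hy hxz hxy hyz.symm hux huy hvx hvy
    exact ⟨s, h1, h2, h3, h4, h5, h7, h6⟩
  by_cases hx : x.1 = 2
  · obtain ⟨s, h1, h2, h3, h4, h5, h6, h7⟩ :=
      five_R (x := y) (y := z) hl hx hyz hxy.symm hxz.symm huy hux hvy hvx
    exact ⟨s, h1, h2, h3, h4, h7, h5, h6⟩
  by_cases hu : u.1 = 2
  · rcases fin3_pigeon x.1 y.1 z.1 hx hy hz with h | h | h
    · exact five_U hl huv hu h hxy hxz hyz hux huy huz hvx hvy hvz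
    · obtain ⟨s, h1, h2, h3, h4, h5, h6, h7⟩ := five_U (x := x) (y := z) (z := y) hl huv hu h
        hxz hxy hyz.symm hux huz huy hvx hvz hvy
      exact ⟨s, h1, h2, h3, h4, h5, h7, h6⟩
    · obtain ⟨s, h1, h2, h3, h4, h5, h6, h7⟩ := five_U (x := y) (y := z) (z := x) hl huv hu h
        hyz hxy.symm hxz.symm huy huz hux hvy hvz hvx
      exact ⟨s, h1, h2, h3, h4, h7, h5, h6⟩
  by_cases hv : v.1 = 2
  · rcases fin3_pigeon x.1 y.1 z.1 hx hy hz with h | h | h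
    · obtain ⟨s, h1, h2, h3, h4, h5, h6, h7⟩ := five_U (u := v) (v := u) hl huv.symm hv h hxy hxz
        hyz hvx hvy hvz hux huy huz
      exact ⟨s, h1, h2, h4, h3, h5, h6, h7⟩
    · obtain ⟨s, h1, h2, h3, h4, h5, h6, h7⟩ := five_U (u := v) (v := u) (x := x) (y := z) (z := y)
        hl huv.symm hv h hxz hxy hyz.symm hvx hvz hvy hux huz huy
      exact ⟨s, h1, h2, h4, h3, h5, h7, h6⟩
    · obtain ⟨s, h1, h2, h3, h4, h5, h6, h7⟩ := five_U (u := v) (v := u) (x := y) (y := z) (z := x)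
        hl huv.symm hv h hyz hxy.symm hxz.symm hvy hvz hvx huy huz hux
      exact ⟨s, h1, h2, h4, h3, h7, h5, h6⟩
  exfalso
  rcases fin3_pigeon x.1 y.1 z.1 hx hy hz with h | h | h
  · exact five_N hl huv h hx hz hu hv hxy hxz hyz hux huy huz hvx hvy hvz
  · exact five_N (x := x) (y := z) (z := y) hl huv h hx hy hu hv hxz hxy hyz.symm hux huz huy
      hvx hvz hvy
  · exact five_N (x := y) (y := z) (z := x) hl huv h hy hx hu hv hyz hxy.symm hxz.symm huy huz hux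
      hvy hvz hvx

end Pool.Agent.MP_000f96_co
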