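import Mathlib

/-!
Definitions for the graph bootstrap process: one round, the running time, percolation,
and the two extremal functions `M_H(n)` and `M'_H(n)`.
-/

namespace Pool.Agent.MP_000f96_co

open SimpleGraph

/-- One round of the `H`-process on `G`: keep the edges of `G` and add every pair `u ≠ v` such that
the number of subgraphs isomorphic to `H` of `G + uv` is larger than that of `G`. -/
noncomputable def step {V W : Type} [Fintype V] (H : SimpleGraph W) (G : SimpleGraph V) :
    SimpleGraph V where
  Adj u v := G.Adj u v ∨ (u ≠ v ∧ G.copyCount H < (G ⊔ edge u v).copyCount H)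
  symm := ⟨fun u v h => by
    rcases h with h | ⟨h1, h2⟩
    · exact Or.inl h.symm
    · exact Or.inr ⟨h1.symm, by rwa [edge_comm]⟩⟩
  loopless := ⟨fun u h => by
    rcases h with h | ⟨h1, _⟩
    · exact h.ne rfl
    · exact h1 rfl⟩

/-- The graph `G_i` of the `H`-process started at `G`. -/
noncomputable def process {V W : Type} [Fintype V] (H : SimpleGraph W) (G : SimpleGraph V)
    (i : ℕ) : SimpleGraph V :=
  (step H)^[i] G

/-- The running time `τ_H(G) = min {t : G_t = G_{t+1}}`. -/
noncomputable def runningTime {V W : Type} [Fintype V] (H : SimpleGraph W)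
    (G : SimpleGraph V) : ℕ :=
  sInf {t : ℕ | process H G t = process H G (t + 1)}

/-- `G` is `H`-percolating if the final graph of the process is complete. -/
def Percolates {V W : Type} [Fintype V] (H : SimpleGraph W) (G : SimpleGraph V) : Prop :=
  process H G (runningTime H G) = ⊤

/-- `M_H(n)`: the maximum running time over all graphs on `n` vertices. -/
noncomputable def maxTime {W : Type} (H : SimpleGraph W) (n : ℕ) : ℕ :=
  sSup {t : ℕ | ∃ G : SimpleGraph (Fin n), runningTime H G = t}

/-- `M'_H(n)`: the maximum running time over all `H`-percolating graphs on `n` vertices. -/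
noncomputable def maxPercTime {W : Type} (H : SimpleGraph W) (n : ℕ) : ℕ :=
  sSup {t : ℕ | ∃ G : SimpleGraph (Fin n), Percolates H G ∧ runningTime H G = t}

end Pool.Agent.MP_000f96_co
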