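import Pool.Agent.MP_000f96_co.Basic

set_option linter.unusedSectionVars false

namespace Pool.Agent.MP_000f96_co

open SimpleGraph Finset

/-- The vertices of the special graph `H`: a `K_5` (`l0`), and a second component consisting of a
`K_6` (`k`), a vertex `w` of degree two and another `K_5` (`l1`). -/
inductive Vtx : Type
  | l0 (i : Fin 5)
  | k (i : Fin 6)
  | w
  | l1 (i : Fin 5)
  deriving DecidableEq, Fintype

namespace Vtx

/-- Adjacency of the special graph. -/
def adj : Vtx → Vtx → Prop
  | l0 i, l0 j => i ≠ j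
  | k i, k j => i ≠ j
  | l1 i, l1 j => i ≠ j
  | k i, w => i = 0 ∨ i = 1
  | w, k i => i = 0 ∨ i = 1
  | l1 j, k i => (j = 0 ∧ i = 2) ∨ (j = 1 ∧ i = 3)
  | k i, l1 j => (j = 0 ∧ i = 2) ∨ (j = 1 ∧ i = 3)
  | _, _ => False

end Vtx

open Vtx

/-- The special graph `H`. -/
def HH : SimpleGraph Vtx where
  Adj := Vtx.adj
  symm := ⟨by
    intro x y h
    cases x <;> cases y <;> simp_all [Vtx.adj] <;> tauto⟩
  loopless := ⟨by
    intro x h
    cases x <;> simp_all [Vtx.adj]⟩

lemma HH_adj (x y : Vtx) : HH.Adj x y ↔ Vtx.adj x y := Iff.rfl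

variable {V : Type} [Fintype V]

/-- Assemble a map from its four pieces. -/
def asm (L0 : Fin 5 → V) (K : Fin 6 → V) (z : V) (L1 : Fin 5 → V) : Vtx → V
  | l0 i => L0 i
  | k i => K i
  | w => z
  | l1 i => L1 i

lemma asm_injective {L0 : Fin 5 → V} {K : Fin 6 → V} {z : V} {L1 : Fin 5 → V}
    (h0 : Function.Injective L0) (hK : Function.Injective K) (h1 : Function.Injective L1)
    (h0K : ∀ i j, L0 i ≠ K j) (h0z : ∀ i, L0 i ≠ z) (h01 : ∀ i j, L0 i ≠ L1 j)
    (hKz : ∀ i, K i ≠ z) (hK1 : ∀ i j, K i ≠ L1 j) (h1z : ∀ i, L1 i ≠ z) :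
    Function.Injective (asm L0 K z L1) := by
  intro x y hxy
  cases x <;> cases y <;> simp only [asm] at hxy
  case l0.l0 i j => rw [h0 hxy]
  case k.k i j => rw [hK hxy]
  case l1.l1 i j => rw [h1 hxy]
  case w.w => rfl
  all_goals first
    | exact absurd hxy (h0K _ _)
    | exact absurd hxy (h0z _)
    | exact absurd hxy (h01 _ _)
    | exact absurd hxy (hKz _)
    | exact absurd hxy (hK1 _ _)
    | exact absurd hxy (h1z _)
    | exact absurd hxy.symm (h0K _ _)
    | exact absurd hxy.symm (h0z _)
    | exact absurd hxy.symm (h01 _ _)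
    | exact absurd hxy.symm (hKz _)
    | exact absurd hxy.symm (hK1 _ _)
    | exact absurd hxy.symm (h1z _)

/-- A finite set with at least `m` elements contains the injective image of `Fin m`. -/
lemma exists_inj (Q : Finset V) (m : ℕ) (h : m ≤ Q.card) :
    ∃ g : Fin m → V, Function.Injective g ∧ ∀ i, g i ∈ Q := by
  obtain ⟨S, hS, hSm⟩ := Finset.exists_subset_card_eq h
  refine ⟨fun i => (S.equivFinOfCardEq hSm).symm i, ?_, ?_⟩
  · intro i j hij
    exact (S.equivFinOfCardEq hSm).symm.injective (Subtype.ext hij)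
  · intro i
    exact hS ((S.equivFinOfCardEq hSm).symm i).2

/-- Injection with two prescribed values. -/
lemma exists_inj5 [DecidableEq V] (Q : Finset V) (h : 5 ≤ Q.card) {a b : V} (ha : a ∈ Q)
    (hb : b ∈ Q) (hab : a ≠ b) :
    ∃ g : Fin 5 → V, Function.Injective g ∧ (∀ i, g i ∈ Q) ∧ g 0 = a ∧ g 1 = b := by
  have h1 : 3 ≤ (Q \ {a, b}).card := by
    have h2 := Finset.le_card_sdiff ({a, b} : Finset V) Q
    have h3 : ({a, b} : Finset V).card ≤ 2 := Finset.card_le_two
    omega
  obtain ⟨g, hg, hgm⟩ := exists_inj (Q \ {a, b}) 3 h1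
  have hg' : ∀ i, g i ∈ Q ∧ g i ≠ a ∧ g i ≠ b := by
    intro i
    have := hgm i
    simp only [Finset.mem_sdiff, Finset.mem_insert, Finset.mem_singleton, not_or] at this
    exact this
  have e01 : g 0 ≠ g 1 := fun h => by have := hg h; simp at this
  have e02 : g 0 ≠ g 2 := fun h => by have := hg h; simp at this
  have e12 : g 1 ≠ g 2 := fun h => by have := hg h; simp at this
  refine ⟨![a, b, g 0, g 1, g 2], ?_, ?_, rfl, rfl⟩
  · intro i j hij
    have ha0 := (hg' 0).2.1
    have hb0 := (hg' 0).2.2
    have ha1 := (hg' 1).2.1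
    have hb1 := (hg' 1).2.2
    have ha2 := (hg' 2).2.1
    have hb2 := (hg' 2).2.2
    fin_cases i <;> fin_cases j <;> first
      | rfl
      | (exfalso; simp at hij; first
          | exact hab hij
          | exact hab hij.symm
          | exact ha0 hij
          | exact ha0 hij.symm
          | exact hb0 hij
          | exact hb0 hij.symm
          | exact ha1 hij
          | exact ha1 hij.symm
          | exact hb1 hij
          | exact hb1 hij.symm
          | exact ha2 hij
          | exact ha2 hij.symm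
          | exact hb2 hij
          | exact hb2 hij.symm
          | exact e01 hij
          | exact e01 hij.symm
          | exact e02 hij
          | exact e02 hij.symm
          | exact e12 hij
          | exact e12 hij.symm)
  · intro i
    fin_cases i
    · exact ha
    · exact hb
    · exact (hg' 0).1
    · exact (hg' 1).1
    · exact (hg' 2).1

/-- Injection with four prescribed values. -/
lemma exists_inj6 [DecidableEq V] (Q : Finset V) (h : 6 ≤ Q.card) {a b c d : V} (ha : a ∈ Q)
    (hb : b ∈ Q) (hc : c ∈ Q) (hd : d ∈ Q) (hab : a ≠ b) (hac : a ≠ c) (had : a ≠ d)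
    (hbc : b ≠ c) (hbd : b ≠ d) (hcd : c ≠ d) :
    ∃ g : Fin 6 → V, Function.Injective g ∧ (∀ i, g i ∈ Q) ∧ g 0 = a ∧ g 1 = b ∧ g 2 = c ∧
      g 3 = d := by
  have h1 : 2 ≤ (Q \ {a, b, c, d}).card := by
    have h2 := Finset.le_card_sdiff ({a, b, c, d} : Finset V) Q
    have h3 : ({a, b, c, d} : Finset V).card ≤ 4 := Finset.card_le_four
    omega
  obtain ⟨g, hg, hgm⟩ := exists_inj (Q \ {a, b, c, d}) 2 h1
  have hg' : ∀ i, g i ∈ Q ∧ g i ≠ a ∧ g i ≠ b ∧ g i ≠ c ∧ g i ≠ d := by
    intro i
    have := hgm i
    simp only [Finset.mem_sdiff, Finset.mem_insert, Finset.mem_singleton, not_or] at this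
    exact this
  have e01 : g 0 ≠ g 1 := fun h => by have := hg h; simp at this
  refine ⟨![a, b, c, d, g 0, g 1], ?_, ?_, rfl, rfl, rfl, rfl⟩
  · intro i j hij
    obtain ⟨-, ha0, hb0, hc0, hd0⟩ := hg' 0
    obtain ⟨-, ha1, hb1, hc1, hd1⟩ := hg' 1
    fin_cases i <;> fin_cases j <;> first
      | rfl
      | (exfalso; simp at hij; first
          | exact hab hij
          | exact hab hij.symm
          | exact hac hij
          | exact hac hij.symm
          | exact had hij
          | exact had hij.symm
          | exact hbc hij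
          | exact hbc hij.symm
          | exact hbd hij
          | exact hbd hij.symm
          | exact hcd hij
          | exact hcd hij.symm
          | exact ha0 hij
          | exact ha0 hij.symm
          | exact hb0 hij
          | exact hb0 hij.symm
          | exact hc0 hij
          | exact hc0 hij.symm
          | exact hd0 hij
          | exact hd0 hij.symm
          | exact ha1 hij
          | exact ha1 hij.symm
          | exact hb1 hij
          | exact hb1 hij.symm
          | exact hc1 hij
          | exact hc1 hij.symm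
          | exact hd1 hij
          | exact hd1 hij.symm
          | exact e01 hij
          | exact e01 hij.symm)
  · intro i
    fin_cases i
    · exact ha
    · exact hb
    · exact hc
    · exact hd
    · exact (hg' 0).1
    · exact (hg' 1).1

/-- Common hypotheses for the two moves. -/
structure Config (G : SimpleGraph V) (L0 K L1 : Finset V) (z : V) : Prop where
  c0 : 5 ≤ L0.card
  cK : 6 ≤ K.card
  c1 : 5 ≤ L1.card
  q0 : G.IsClique (L0 : Set V)
  qK : G.IsClique (K : Set V)
  q1 : G.IsClique (L1 : Set V)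
  d0K : Disjoint L0 K
  d01 : Disjoint L0 L1
  dK1 : Disjoint K L1
  z0 : z ∉ L0
  zK : z ∉ K
  z1 : z ∉ L1

lemma moves [DecidableEq V] {G : SimpleGraph V} {L0 K L1 : Finset V} {z : V}
    (hc : Config G L0 K L1 z) {a b c d l l' : V} (ha : a ∈ K)
    (hb : b ∈ K) (hc' : c ∈ K) (hd : d ∈ K) (hab : a ≠ b) (hac : a ≠ c) (had : a ≠ d)
    (hbc : b ≠ c) (hbd : b ≠ d) (hcd : c ≠ d) (hl : l ∈ L1) (hl' : l' ∈ L1) (hll : l ≠ l')
    (h1 : G.Adj z a) (h2 : G.Adj l c) :
    (G.Adj l' d → (step HH G).Adj z b) ∧ (G.Adj z b → (step HH G).Adj l' d) := by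
  obtain ⟨g0, hg0, hg0m⟩ := exists_inj L0 5 hc.c0
  obtain ⟨gK, hgK, hgKm, gK0, gK1, gK2, gK3⟩ :=
    exists_inj6 K hc.cK ha hb hc' hd hab hac had hbc hbd hcd
  obtain ⟨g1, hg1, hg1m, g10, g11⟩ := exists_inj5 L1 hc.c1 hl hl' hll
  have hinj : Function.Injective (asm g0 gK z g1) := by
    apply asm_injective hg0 hgK hg1
    · intro i j h
      exact Finset.disjoint_left.1 hc.d0K (hg0m i) (h ▸ hgKm j)
    · intro i h
      exact hc.z0 (h ▸ hg0m i)
    · intro i j h
      exact Finset.disjoint_left.1 hc.d01 (hg0m i) (h ▸ hg1m j)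
    · intro i h
      exact hc.zK (h ▸ hgKm i)
    · intro i j h
      exact Finset.disjoint_left.1 hc.dK1 (hgKm i) (h ▸ hg1m j)
    · intro i h
      exact hc.z1 (h ▸ hg1m i)
  have base : ∀ x y, HH.Adj x y → G.Adj (asm g0 gK z g1 x) (asm g0 gK z g1 y) ∨
      s(x, y) = s(w, k 1) ∨ s(x, y) = s(l1 1, k 3) := by
    intro x y hxy
    rw [HH_adj] at hxy
    cases x <;> cases y <;> simp only [Vtx.adj] at hxy
    case l0.l0 i j =>
      left
      exact hc.q0 (hg0m i) (hg0m j) (fun h => hxy (hg0 h))
    case k.k i j =>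
      left
      exact hc.qK (hgKm i) (hgKm j) (fun h => hxy (hgK h))
    case l1.l1 i j =>
      left
      exact hc.q1 (hg1m i) (hg1m j) (fun h => hxy (hg1 h))
    case k.w i =>
      rcases hxy with rfl | rfl
      · left
        simp only [asm, gK0]
        exact h1.symm
      · right; left
        exact Sym2.eq_swap
    case w.k i =>
      rcases hxy with rfl | rfl
      · left
        simp only [asm, gK0]
        exact h1
      · right; left
        rfl
    case l1.k j i =>
      rcases hxy with ⟨rfl, rfl⟩ | ⟨rfl, rfl⟩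
      · left
        simp only [asm, gK2, g10]
        exact h2
      · right; right
        rfl
    case k.l1 i j =>
      rcases hxy with ⟨rfl, rfl⟩ | ⟨rfl, rfl⟩
      · left
        simp only [asm, gK2, g10]
        exact h2.symm
      · right; right
        exact Sym2.eq_swap
  constructor
  · intro h3
    have := step_adj_of_map G HH (asm g0 gK z g1) hinj w (k 1) (by simp [HH_adj, Vtx.adj]) (by
      intro x y hxy
      rcases base x y hxy with h | h | h
      · exact Or.inl h
      · exact Or.inr h
      · left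
        rcases Sym2.eq_iff.1 h with ⟨rfl, rfl⟩ | ⟨rfl, rfl⟩
        · simp only [asm, gK3, g11]; exact h3
        · simp only [asm, gK3, g11]; exact h3.symm)
    simpa only [asm, gK1] using this
  · intro h3
    have := step_adj_of_map G HH (asm g0 gK z g1) hinj (l1 1) (k 3) (by simp [HH_adj, Vtx.adj]) (by
      intro x y hxy
      rcases base x y hxy with h | h | h
      · exact Or.inl h
      · left
        rcases Sym2.eq_iff.1 h with ⟨rfl, rfl⟩ | ⟨rfl, rfl⟩
        · simp only [asm, gK1]; exact h3
        · simp only [asm, gK1]; exact h3.symm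
      · exact Or.inr h)
    simpa only [asm, gK3, g11] using this

end Pool.Agent.MP_000f96_co
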