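import Pool.Agent.MP_000f96_co.Upper2
import Pool.Agent.MP_000f96_co.Blocks

set_option linter.unusedSectionVars false
set_option linter.unusedSimpArgs false

/-!
The slow non-percolating starting graph.
-/

namespace Pool.Agent.MP_000f96_co

open SimpleGraph
open Vtx

variable {l : ℕ}

/-- The point at time `s` on cycle `i`. -/
def pt (hl : 1 ≤ l) (i : Fin 3) (s : ℤ) : Mn l :=
  ⟨i, ⟨(s % (NN l i : ℤ)).toNat, by
    have h := NN_ge hl i
    have h1 : (0 : ℤ) < (NN l i : ℤ) := by exact_mod_cast (by omega : 0 < NN l i)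
    have h2 := Int.emod_nonneg s (ne_of_gt h1)
    have h3 := Int.emod_lt_of_pos s h1
    omega⟩⟩

lemma co_pt (hl : 1 ≤ l) (i : Fin 3) (s : ℤ) : co (pt hl i s) = s % (NN l i : ℤ) := by
  have h := NN_ge hl i
  have h1 : (0 : ℤ) < (NN l i : ℤ) := by exact_mod_cast (by omega : 0 < NN l i)
  have h2 := Int.emod_nonneg s (ne_of_gt h1)
  simp only [co, pt]
  omega

lemma pt_dvd (hl : 1 ≤ l) (i : Fin 3) (s : ℤ) : (NN l i : ℤ) ∣ s - co (pt hl i s) := by
  rw [co_pt]
  exact Int.dvd_self_sub_emod

lemma pt_eq_imp (hl : 1 ≤ l) {i : Fin 3} {s t : ℤ} (h : pt hl i s = pt hl i t) :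
    (NN l i : ℤ) ∣ s - t := by
  have h1 := pt_dvd hl i s
  have h2 := pt_dvd hl i t
  rw [h] at h1
  have := dvd_sub h1 h2
  convert! this using 1; ring

lemma pt_ne_succ (hl : 1 ≤ l) (i : Fin 3) (s : ℤ) : pt hl i s ≠ pt hl i (s + 1) := by
  intro h
  have h1 := pt_eq_imp hl h
  have := small_dvd hl h1 (by omega) (by omega)
  omega

lemma pt_ne_type (hl : 1 ≤ l) {i j : Fin 3} (hij : i ≠ j) (s t : ℤ) : pt hl i s ≠ pt hl j t := by
  intro h
  exact hij (congrArg Sigma.fst h)

lemma inB_pt (hl : 1 ≤ l) (i : Fin 3) (s : ℤ) : inB s (pt hl i s) := by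
  refine ⟨0, le_refl _, ?_, ?_⟩
  · change 0 ≤ wid i
    fin_cases i <;> simp [wid]
  · rw [add_zero]
    exact pt_dvd hl i s

lemma inB_pt_succ (hl : 1 ≤ l) (i : Fin 3) (hi : i ≠ 2) (s : ℤ) : inB s (pt hl i (s + 1)) := by
  refine ⟨1, by norm_num, ?_, pt_dvd hl i (s + 1)⟩
  change 1 ≤ wid i
  fin_cases i <;> simp_all [wid]

lemma eq_pt_of_dvd (hl : 1 ≤ l) {v : Mn l} {s : ℤ} (h : (NN l v.1 : ℤ) ∣ s - co v) :
    v = pt hl v.1 s := by
  apply ext_of_dvd (u := v) (v := pt hl v.1 s) rfl
  have := dvd_sub (pt_dvd hl v.1 s) h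
  convert! this using 1; ring

lemma inB_cases (hl : 1 ≤ l) {v : Mn l} {s : ℤ} (h : inB s v) :
    v = pt hl 0 s ∨ v = pt hl 0 (s + 1) ∨ v = pt hl 1 s ∨ v = pt hl 1 (s + 1) ∨
      v = pt hl 2 s := by
  obtain ⟨e, he, he', hd⟩ := h
  have hv := eq_pt_of_dvd hl hd
  have w := wid_le v.1
  have h3 : v.1 = 0 ∨ v.1 = 1 ∨ v.1 = 2 := by omega
  have he01 : e = 0 ∨ e = 1 := by omega
  rcases h3 with h | h | h
  · rw [h] at hv
    rcases he01 with rfl | rfl
    · left; rw [add_zero] at hv; exact hv
    · right; left; exact hv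
  · rw [h] at hv
    rcases he01 with rfl | rfl
    · right; right; left; rw [add_zero] at hv; exact hv
    · right; right; right; left; exact hv
  · rw [h, wid_two] at he'
    rw [h] at hv
    have : e = 0 := by omega
    subst this
    right; right; right; right; rw [add_zero] at hv; exact hv

/-- Five distinct members of a block are the whole block. -/
lemma block_full (hl : 1 ≤ l) {s : ℤ} (g : Fin 5 → Mn l) (hg : Function.Injective g)
    (h : ∀ i, inB s (g i)) {v : Mn l} (hv : inB s v) : ∃ i, g i = v := by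
  classical
  let B : Finset (Mn l) := {pt hl 0 s, pt hl 0 (s + 1), pt hl 1 s, pt hl 1 (s + 1), pt hl 2 s}
  have hB : ∀ w, inB s w → w ∈ B := by
    intro w hw
    simp only [B, Finset.mem_insert, Finset.mem_singleton]
    exact inB_cases hl hw
  have hBc : B.card ≤ 5 := Finset.card_le_five
  have himg : (Finset.univ.image g) ⊆ B := by
    intro w hw
    obtain ⟨i, -, rfl⟩ := Finset.mem_image.1 hw
    exact hB _ (h i)
  have hc : (Finset.univ.image g).card = 5 := by
    rw [Finset.card_image_of_injective _ hg]; simp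
  have heq : Finset.univ.image g = B := Finset.eq_of_subset_of_card_le himg (by omega)
  have := hB v hv
  rw [← heq] at this
  obtain ⟨i, -, hi⟩ := Finset.mem_image.1 this
  exact ⟨i, hi⟩

lemma sp_time (hl : 1 ≤ l) {s j : ℤ} (hs : 0 ≤ s) (hs' : s ≤ TT l) (hj : 0 ≤ j)
    (hj' : j ≤ TT l) (h0 : inB s (pt hl 0 j)) (h1 : inB s (pt hl 1 j)) : j = s ∨ j = s + 1 := by
  obtain ⟨e, he, he', hd⟩ := h0
  obtain ⟨f, hf, hf', hd'⟩ := h1
  have w0 := wid_le 0
  have w1 := wid_le 1
  change e ≤ wid 0 at he'
  change f ≤ wid 1 at hf'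
  have k1 : (NN l 0 : ℤ) ∣ j - s - e := by
    have := dvd_sub (pt_dvd hl 0 j) hd
    convert! this using 1; ring
  have k2 : (NN l 1 : ℤ) ∣ j - s - f := by
    have := dvd_sub (pt_dvd hl 1 j) hd'
    convert! this using 1; ring
  have := sep2 l hl 0 1 (by decide) j s _ _ hj hj' hs hs' (by omega) (by omega) (by omega)
    (by omega) k1 k2
  omega

lemma sp_inj (hl : 1 ≤ l) {s j : ℤ} (hs : 0 ≤ s) (hs' : s ≤ TT l) (hj : 0 ≤ j)
    (hj' : j ≤ TT l) (h : s(pt hl 0 s, pt hl 1 s) = s(pt hl 0 j, pt hl 1 j)) : s = j := by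
  rcases Sym2.eq_iff.1 h with ⟨h0, h1⟩ | ⟨h0, h1⟩
  · have k1 := pt_eq_imp hl h0
    have k2 := pt_eq_imp hl h1
    have := sep2 l hl 0 1 (by decide) s j 0 0 hs hs' hj hj' (by omega) (by omega) (by omega)
      (by omega) (by simpa using k1) (by simpa using k2)
    omega
  · exact absurd h0 (pt_ne_type hl (by decide) _ _)

/-- Adjacency at time `t`: the pairs `p_j q_j` with `j > t` are still missing. -/
def Ft (hl : 1 ≤ l) (t : ℤ) (u v : Mn l) : Prop :=
  Fs u v ∧ ∀ j : ℤ, t < j → j ≤ TT l → s(u, v) ≠ s(pt hl 0 j, pt hl 1 j)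

/-- The vertex set. -/
abbrev V0 (l r : ℕ) : Type := Mn l ⊕ (Fin 12 ⊕ Fin r)

/-- Adjacency of the slow graph. -/
def slowAdj (hl : 1 ≤ l) (r : ℕ) (t : ℤ) : V0 l r → V0 l r → Prop
  | Sum.inl u, Sum.inl v => Ft hl t u v
  | Sum.inr (Sum.inl i), Sum.inr (Sum.inl j) => i ≠ j
  | _, _ => False

/-- The slow graph at time `t`. -/
def slow (hl : 1 ≤ l) (r : ℕ) (t : ℤ) : SimpleGraph (V0 l r) where
  Adj := slowAdj hl r t
  symm := ⟨by
    intro x y h
    rcases x with u | i | i <;> rcases y with v | j | j <;> simp only [slowAdj] at h ⊢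
    · refine ⟨h.1.symm, fun j h1 h2 h3 => h.2 j h1 h2 ?_⟩
      rw [Sym2.eq_swap]
      exact h3
    · exact Ne.symm h⟩
  loopless := ⟨by
    intro x h
    rcases x with u | i | i <;> simp only [slowAdj] at h
    · exact h.1.1 rfl
    · exact h rfl⟩

/-- Component labels. -/
def part {l r : ℕ} : V0 l r → Fin 2 ⊕ Fin r
  | Sum.inl _ => Sum.inl 0
  | Sum.inr (Sum.inl _) => Sum.inl 1
  | Sum.inr (Sum.inr j) => Sum.inr j

lemma part_adj (hl : 1 ≤ l) (r : ℕ) (t : ℤ) (x y : V0 l r) (h : (slow hl r t).Adj x y) :
    part x = part y := by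
  change slowAdj hl r t x y at h
  rcases x with u | i | i <;> rcases y with v | j | j <;> simp only [slowAdj] at h <;>
    simp [part]

lemma part_main {r : ℕ} {x : V0 l r} (h : part x = Sum.inl 0) : ∃ u, x = Sum.inl u := by
  rcases x with u | i | i
  · exact ⟨u, rfl⟩
  · simp [part] at h
  · simp [part] at h

lemma fin5_compl : ∀ i j : Fin 5, i ≠ j → ∃ a b c : Fin 5, a ≠ i ∧ a ≠ j ∧ b ≠ i ∧ b ≠ j ∧
    c ≠ i ∧ c ≠ j ∧ a ≠ b ∧ a ≠ c ∧ b ≠ c ∧ ∀ m, m = i ∨ m = j ∨ m = a ∨ m = b ∨ m = c := by
  decide

/-- The `K_5` minus an edge lemma in functional form. -/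
lemma five_fun (hl : 1 ≤ l) (g : Fin 5 → Mn l) (hg : Function.Injective g) (u v : Mn l)
    (h : ∀ i j, i ≠ j → Fs (g i) (g j) ∨ s(g i, g j) = s(u, v)) :
    ∃ s : ℤ, 0 ≤ s ∧ s < TT l ∧ ∀ i, inB s (g i) := by
  have key : ∀ i j : Fin 5, i ≠ j → (∀ m n, m ≠ n → s(m, n) ≠ s(i, j) → Fs (g m) (g n)) →
      ∃ s : ℤ, 0 ≤ s ∧ s < TT l ∧ ∀ i, inB s (g i) := by
    intro i j hij hall
    obtain ⟨a, b, c, hai, haj, hbi, hbj, hci, hcj, hab, hac, hbc, hm⟩ := fin5_compl i j hij
    have hne : ∀ m n : Fin 5, m ≠ n → m ≠ i → m ≠ j → s(m, n) ≠ s(i, j) := by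
      intro m n _ h1 h2 h3
      rcases Sym2.eq_iff.1 h3 with ⟨h4, _⟩ | ⟨h4, _⟩
      · exact h1 h4
      · exact h2 h4
    have hne' : ∀ m n : Fin 5, m ≠ n → n ≠ i → n ≠ j → s(m, n) ≠ s(i, j) := by
      intro m n h0 h1 h2 h3
      exact hne n m h0.symm h1 h2 (by rw [Sym2.eq_swap]; exact h3)
    obtain ⟨s, hs, hs', h1, h2, h3, h4, h5⟩ := five hl (u := g i) (v := g j) (x := g a) (y := g b)
      (z := g c) (fun e => hij (hg e))
      (hall a b hab (hne a b hab hai haj)) (hall a c hac (hne a c hac hai haj))
      (hall b c hbc (hne b c hbc hbi hbj)) (hall i a hai.symm (hne' i a hai.symm hai haj))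
      (hall i b hbi.symm (hne' i b hbi.symm hbi hbj))
      (hall i c hci.symm (hne' i c hci.symm hci hcj))
      (hall j a haj.symm (hne' j a haj.symm hai haj))
      (hall j b hbj.symm (hne' j b hbj.symm hbi hbj))
      (hall j c hcj.symm (hne' j c hcj.symm hci hcj))
    refine ⟨s, hs, hs', ?_⟩
    intro m
    rcases hm m with rfl | rfl | rfl | rfl | rfl <;> assumption
  by_cases hall : ∀ i j, i ≠ j → Fs (g i) (g j)
  · exact key 0 1 (by decide) (fun m n h1 _ => hall m n h1)
  · push Not at hall
    obtain ⟨i, j, hij, hnot⟩ := hall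
    have he := (h i j hij).resolve_left hnot
    apply key i j hij
    intro m n hmn hne
    refine (h m n hmn).resolve_right ?_
    intro h1
    apply hne
    rw [← he] at h1
    rcases Sym2.eq_iff.1 h1 with ⟨h2, h3⟩ | ⟨h2, h3⟩
    · rw [hg h2, hg h3]
    · rw [hg h2, hg h3]; exact Sym2.eq_swap

/-- There is no `K_6` minus an edge. -/
lemma no_six (hl : 1 ≤ l) (g : Fin 6 → Mn l) (hg : Function.Injective g) (u v : Mn l)
    (h : ∀ i j, i ≠ j → Fs (g i) (g j) ∨ s(g i, g j) = s(u, v)) : False := by
  have key : ∀ m : Fin 6, (∃ i, i ≠ m ∧ (g i).1 = 2) ∧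
      ∀ i j, i ≠ m → j ≠ m → (g i).1 = 2 → (g j).1 = 2 → i = j := by
    intro m
    have hinj : Function.Injective (fun i : Fin 5 => g (m.succAbove i)) :=
      hg.comp Fin.succAbove_right_injective
    obtain ⟨s, hs, hs', hb⟩ := five_fun hl (fun i : Fin 5 => g (m.succAbove i)) hinj u v (by
      intro i j hij
      exact h _ _ (fun e => hij (Fin.succAbove_right_injective e)))
    constructor
    · obtain ⟨i, hi⟩ := block_full hl _ hinj hb (inB_pt hl 2 s)
      refine ⟨m.succAbove i, Fin.succAbove_ne m i, ?_⟩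
      have h1 : g (m.succAbove i) = pt hl 2 s := hi
      rw [h1]
      rfl
    · intro i j him hjm hi hj
      obtain ⟨i', rfl⟩ := Fin.exists_succAbove_eq him
      obtain ⟨j', rfl⟩ := Fin.exists_succAbove_eq hjm
      have h1 : inB s (g (m.succAbove i')) := hb i'
      have h2 : inB s (g (m.succAbove j')) := hb j'
      have e1 : g (m.succAbove i') = pt hl 2 s := by
        rcases inB_cases hl h1 with h | h | h | h | h
        · rw [h] at hi; exact absurd (show (0 : Fin 3) = 2 from hi) (by decide)
        · rw [h] at hi; exact absurd (show (0 : Fin 3) = 2 from hi) (by decide)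
        · rw [h] at hi; exact absurd (show (1 : Fin 3) = 2 from hi) (by decide)
        · rw [h] at hi; exact absurd (show (1 : Fin 3) = 2 from hi) (by decide)
        · exact h
      have e2 : g (m.succAbove j') = pt hl 2 s := by
        rcases inB_cases hl h2 with h | h | h | h | h
        · rw [h] at hj; exact absurd (show (0 : Fin 3) = 2 from hj) (by decide)
        · rw [h] at hj; exact absurd (show (0 : Fin 3) = 2 from hj) (by decide)
        · rw [h] at hj; exact absurd (show (1 : Fin 3) = 2 from hj) (by decide)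
        · rw [h] at hj; exact absurd (show (1 : Fin 3) = 2 from hj) (by decide)
        · exact h
      exact hg (e1.trans e2.symm)
  obtain ⟨i, hi, hi2⟩ := (key 0).1
  obtain ⟨j, hj, hj2⟩ := (key i).1
  obtain ⟨m, hmi, hmj⟩ : ∃ m : Fin 6, m ≠ i ∧ m ≠ j := by
    clear hi hj hi2 hj2
    revert i j
    decide
  exact hj ((key m).2 j i hmj.symm hmi.symm hj2 hi2)

lemma sup_edge_main (hl : 1 ≤ l) {r : ℕ} {t : ℤ} {u v a b : Mn l}
    (h : (slow hl r t ⊔ edge (Sum.inl u) (Sum.inl v)).Adj (Sum.inl a) (Sum.inl b)) :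
    Ft hl t a b ∨ s(a, b) = s(u, v) := by
  rw [sup_adj, edge_adj] at h
  rcases h with h | h
  · exact Or.inl h
  · right
    rcases h.1 with ⟨h1, h2⟩ | ⟨h1, h2⟩
    · rw [Sum.inl_injective h1, Sum.inl_injective h2]
    · rw [Sum.inl_injective h1, Sum.inl_injective h2]; exact Sym2.eq_swap

/-- Only the pair `p_{t+1} q_{t+1}` can be infected at time `t`. -/
lemma step_slow_le (hl : 1 ≤ l) (r : ℕ) (t : ℕ) :
    step HH (slow hl r t) ≤ slow hl r (t + 1) := by
  have hmono : slow hl r t ≤ slow hl r (t + 1) := by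
    intro x y h
    change slowAdj hl r t x y at h
    change slowAdj hl r (t + 1) x y
    rcases x with u | i | i <;> rcases y with v | j | j <;> simp only [slowAdj] at h ⊢
    · exact ⟨h.1, fun j h1 h2 => h.2 j (by omega) h2⟩
    · exact h
  intro x y hxy
  rw [step_adj_iff] at hxy
  rcases hxy with hxy | ⟨hne, hn, f, a, b, hab, hfa, hfb⟩
  · exact hmono hxy
  have hpart := label_copy part (part_adj hl r t) f
  have hxy' : part x = part y := by
    have h1 := hpart a b hab
    rw [hfa, hfb] at h1
    exact h1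
  rcases x with u | i | i
  · rcases y with v | j | j
    · -- the main case
      have hab' : Vtx.adj a b := hab
      have hpa : part (f a) = Sum.inl 0 := by rw [hfa]; rfl
      have hpb : part (f b) = Sum.inl 0 := by rw [hfb]; rfl
      have huv : u ≠ v := fun h => hne (by rw [h])
      by_cases hcase : ∃ i j, a = l0 i ∧ b = l0 j
      · obtain ⟨i0, j0, rfl, rfl⟩ := hcase
        have hall : ∀ i, part (f (l0 i)) = Sum.inl 0 := by
          intro i
          by_cases h : i = i0
          · rw [h]; exact hpa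
          · rw [hpart (l0 i) (l0 i0) h]; exact hpa
        choose g hg using fun i => part_main (hall i)
        have hginj : Function.Injective g := by
          intro i j h
          have : f (l0 i) = f (l0 j) := by rw [hg, hg, h]
          have := f.injective this
          simpa using this
        have hgu : g i0 = u := by
          have := hg i0
          rw [hfa] at this
          exact (Sum.inl_injective this).symm
        have hgv : g j0 = v := by
          have := hg j0
          rw [hfb] at this
          exact (Sum.inl_injective this).symm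
        have hadj : ∀ i j, i ≠ j → Ft hl t (g i) (g j) ∨ s(g i, g j) = s(u, v) := by
          intro i j hij
          have h1 := f.toHom.map_adj (show HH.Adj (l0 i) (l0 j) from hij)
          simp only [Copy.toHom_apply] at h1
          rw [hg, hg] at h1
          exact sup_edge_main hl h1
        obtain ⟨s, hs, hs', hb⟩ := five_fun hl g hginj u v
          (fun i j hij => (hadj i j hij).imp (fun h => h.1) id)
        have hFs : Fs u v := ⟨huv, s, hs, hs', by rw [← hgu]; exact hb i0,
          by rw [← hgv]; exact hb j0⟩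
        have hnF : ¬ Ft hl t u v := hn
        have hex : ∃ j : ℤ, (t : ℤ) < j ∧ j ≤ TT l ∧ s(u, v) = s(pt hl 0 j, pt hl 1 j) := by
          by_contra hcon
          push Not at hcon
          exact hnF ⟨hFs, hcon⟩
        obtain ⟨j, hj, hj', huvj⟩ := hex
        have hpj : inB s (pt hl 0 j) ∧ inB s (pt hl 1 j) := by
          rcases Sym2.eq_iff.1 huvj with ⟨h1, h2⟩ | ⟨h1, h2⟩
          · rw [← h1, ← h2, ← hgu, ← hgv]; exact ⟨hb _, hb _⟩
          · rw [← h1, ← h2, ← hgu, ← hgv]; exact ⟨hb _, hb _⟩
        have hjs := sp_time hl hs hs'.le (by omega) hj' hpj.1 hpj.2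
        -- the other pair of the block is present
        have hother : ∀ m : ℤ, inB s (pt hl 0 m) → inB s (pt hl 1 m) → pt hl 0 m ≠ pt hl 0 j →
            m ≤ TT l → m ≤ t := by
          intro m h0 h1 hne0 hmT
          obtain ⟨i1, hi1⟩ := block_full hl g hginj hb h0
          obtain ⟨i2, hi2⟩ := block_full hl g hginj hb h1
          have hi12 : i1 ≠ i2 := by
            rintro rfl
            exact pt_ne_type hl (by decide) m m (hi1.symm.trans hi2)
          rcases hadj i1 i2 hi12 with h | h
          · by_contra hcon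
            push Not at hcon
            apply h.2 m hcon hmT
            rw [hi1, hi2]
          · exfalso
            rw [huvj, hi1, hi2] at h
            rcases Sym2.eq_iff.1 h with ⟨h2, _⟩ | ⟨h2, _⟩
            · exact hne0 h2
            · exact pt_ne_type hl (by decide) _ _ h2
        have hjt : j = t + 1 := by
          rcases hjs with rfl | rfl
          · have := hother (j + 1) (inB_pt_succ hl 0 (by decide) j)
              (inB_pt_succ hl 1 (by decide) j) (pt_ne_succ hl 0 j).symm (by omega)
            omega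
          · have := hother s (inB_pt hl 0 s) (inB_pt hl 1 s) (pt_ne_succ hl 0 s) (by omega)
            omega
        subst hjt
        change Ft hl (t + 1) u v
        refine ⟨hFs, fun j' h1 h2 h3 => ?_⟩
        rw [huvj] at h3
        have := sp_inj hl (by omega) hj' (by omega) h2 h3
        omega
      · exfalso
        -- all of the second component of `H` is mapped to the main part
        have hk0 : part (f (k 0)) = Sum.inl 0 ∧ True := by
          have hkk : ∀ i, part (f (k i)) = part (f (k 0)) := by
            intro i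
            by_cases h : i = 0
            · rw [h]
            · exact hpart (k i) (k 0) h
          have hkw : part (f w) = part (f (k 0)) := hpart w (k 0) (Or.inl rfl)
          have hkl : ∀ i, part (f (l1 i)) = part (f (k 0)) := by
            intro i
            have h1 : part (f (l1 0)) = part (f (k 2)) := hpart (l1 0) (k 2) (Or.inl ⟨rfl, rfl⟩)
            by_cases h : i = 0
            · rw [h, h1]; exact hkk 2
            · rw [hpart (l1 i) (l1 0) h, h1]; exact hkk 2
          refine ⟨?_, trivial⟩
          cases a with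
          | l0 i =>
            cases b with
            | l0 j => exact absurd ⟨i, j, rfl, rfl⟩ hcase
            | k j => exact absurd hab' (by simp [Vtx.adj])
            | w => exact absurd hab' (by simp [Vtx.adj])
            | l1 j => exact absurd hab' (by simp [Vtx.adj])
          | k i => rw [← hkk i]; exact hpa
          | w => rw [← hkw]; exact hpa
          | l1 i => rw [← hkl i]; exact hpa
        have hall : ∀ i, part (f (k i)) = Sum.inl 0 := by
          intro i
          by_cases h : i = 0
          · rw [h]; exact hk0.1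
          · rw [hpart (k i) (k 0) h]; exact hk0.1
        choose g hg using fun i => part_main (hall i)
        have hginj : Function.Injective g := by
          intro i j h
          have : f (k i) = f (k j) := by rw [hg, hg, h]
          have := f.injective this
          simpa using this
        apply no_six hl g hginj u v
        intro i j hij
        have h1 := f.toHom.map_adj (show HH.Adj (k i) (k j) from hij)
        simp only [Copy.toHom_apply] at h1
        rw [hg, hg] at h1
        exact (sup_edge_main hl h1).imp (fun h => h.1) id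
    · simp [part] at hxy'
    · simp [part] at hxy'
  · rcases y with v | j | j
    · simp [part] at hxy'
    · exfalso
      apply hn
      change i ≠ j
      intro h
      exact hne (by rw [h])
    · simp [part] at hxy'
  · rcases y with v | j | j
    · simp [part] at hxy'
    · simp [part] at hxy'
    · exfalso
      simp only [part, Sum.inr.injEq] at hxy'
      exact hne (by rw [hxy'])

/-- The pair `p_{t+1} q_{t+1}` is infected at time `t`. -/
lemma slow_succ_le (hl : 1 ≤ l) (r : ℕ) (t : ℕ) (ht : t < TT l) :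
    slow hl r (t + 1) ≤ step HH (slow hl r t) := by
  have ht' : (t : ℤ) < TT l := by exact_mod_cast ht
  let g : Fin 5 → Mn l := ![pt hl 0 (t + 1), pt hl 1 (t + 1), pt hl 0 t, pt hl 1 t, pt hl 2 t]
  have hginj : Function.Injective g := by
    have n00 := pt_ne_succ hl 0 t
    have n11 := pt_ne_succ hl 1 t
    have ty : ∀ {i j : Fin 3} (s s' : ℤ), i ≠ j → pt hl i s ≠ pt hl j s' :=
      fun s s' h => pt_ne_type hl h s s'
    intro i j hij
    fin_cases i <;> fin_cases j <;> first
      | rfl
      | (exfalso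
         first
          | exact n00 hij
          | exact n00 hij.symm
          | exact n11 hij
          | exact n11 hij.symm
          | exact ty _ _ (by decide) hij)
  have hgB : ∀ i, inB (t : ℤ) (g i) := by
    intro i
    fin_cases i
    · exact inB_pt_succ hl 0 (by decide) t
    · exact inB_pt_succ hl 1 (by decide) t
    · exact inB_pt hl 0 t
    · exact inB_pt hl 1 t
    · exact inB_pt hl 2 t
  have hgadj : ∀ i j, i ≠ j → Ft hl t (g i) (g j) ∨ s(i, j) = s((0 : Fin 5), 1) := by
    intro i j hij
    by_cases hex : ∃ m : ℤ, (t : ℤ) < m ∧ m ≤ TT l ∧ s(g i, g j) = s(pt hl 0 m, pt hl 1 m)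
    · right
      obtain ⟨m, hm, hm', he⟩ := hex
      have hpm : inB (t : ℤ) (pt hl 0 m) ∧ inB (t : ℤ) (pt hl 1 m) := by
        rcases Sym2.eq_iff.1 he with ⟨h1, h2⟩ | ⟨h1, h2⟩
        · rw [← h1, ← h2]; exact ⟨hgB _, hgB _⟩
        · rw [← h1, ← h2]; exact ⟨hgB _, hgB _⟩
      have := sp_time hl (by omega) (by omega) (by omega) hm' hpm.1 hpm.2
      have hmt : m = t + 1 := by omega
      rw [hmt] at he
      have he' : s(g i, g j) = s(g 0, g 1) := he
      rcases Sym2.eq_iff.1 he' with ⟨h1, h2⟩ | ⟨h1, h2⟩
      · rw [hginj h1, hginj h2]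
      · rw [hginj h1, hginj h2]; exact Sym2.eq_swap
    · left
      push Not at hex
      exact ⟨⟨fun h => hij (hginj h), t, by omega, ht', hgB i, hgB j⟩, hex⟩
  -- the copy of `H`
  let F : Vtx → V0 l r := asm (fun i => Sum.inl (g i))
    (fun i => Sum.inr (Sum.inl (i.castLE (by norm_num))))
    (Sum.inr (Sum.inl 6)) (fun i => Sum.inr (Sum.inl (i.natAdd 7)))
  have hF : Function.Injective F := by
    apply asm_injective
    · intro i j h
      exact hginj (Sum.inl_injective h)
    · intro i j h
      have := Sum.inl_injective (Sum.inr_injective h)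
      exact Fin.castLE_injective _ this
    · intro i j h
      have := Sum.inl_injective (Sum.inr_injective h)
      exact Fin.natAdd_injective _ _ this
    · intro i j h; exact absurd h (by simp)
    · intro i h; exact absurd h (by simp)
    · intro i j h; exact absurd h (by simp)
    · intro i h
      have := Sum.inl_injective (Sum.inr_injective h)
      clear h; revert i; decide
    · intro i j h
      have := Sum.inl_injective (Sum.inr_injective h)
      clear h; revert i j; decide
    · intro i h
      have := Sum.inl_injective (Sum.inr_injective h)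
      clear h; revert i; decide
  have hnew : (step HH (slow hl r t)).Adj (Sum.inl (pt hl 0 (t + 1)))
      (Sum.inl (pt hl 1 (t + 1))) := by
    have := step_adj_of_map (slow hl r t) HH F hF (l0 0) (l0 1) (by simp [HH_adj, Vtx.adj]) (by
      intro c d hcd
      have hne : F c ≠ F d := fun h => hcd.ne (hF h)
      have hcd' : Vtx.adj c d := hcd
      cases c with
      | l0 i =>
        cases d with
        | l0 j =>
          rcases hgadj i j hcd' with h | h
          · exact Or.inl h
          · right
            rcases Sym2.eq_iff.1 h with ⟨rfl, rfl⟩ | ⟨rfl, rfl⟩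
            · rfl
            · exact Sym2.eq_swap
        | k j => exact absurd hcd' (by simp [Vtx.adj])
        | w => exact absurd hcd' (by simp [Vtx.adj])
        | l1 j => exact absurd hcd' (by simp [Vtx.adj])
      | k i =>
        cases d with
        | l0 j => exact absurd hcd' (by simp [Vtx.adj])
        | k j => exact Or.inl (fun h => hne (congrArg (fun z => Sum.inr (Sum.inl z)) h))
        | w => exact Or.inl (fun h => hne (congrArg (fun z => Sum.inr (Sum.inl z)) h))
        | l1 j => exact Or.inl (fun h => hne (congrArg (fun z => Sum.inr (Sum.inl z)) h))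
      | w =>
        cases d with
        | l0 j => exact absurd hcd' (by simp [Vtx.adj])
        | k j => exact Or.inl (fun h => hne (congrArg (fun z => Sum.inr (Sum.inl z)) h))
        | w => exact absurd hcd' (by simp [Vtx.adj])
        | l1 j => exact Or.inl (fun h => hne (congrArg (fun z => Sum.inr (Sum.inl z)) h))
      | l1 i =>
        cases d with
        | l0 j => exact absurd hcd' (by simp [Vtx.adj])
        | k j => exact Or.inl (fun h => hne (congrArg (fun z => Sum.inr (Sum.inl z)) h))
        | w => exact Or.inl (fun h => hne (congrArg (fun z => Sum.inr (Sum.inl z)) h))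
        | l1 j => exact Or.inl (fun h => hne (congrArg (fun z => Sum.inr (Sum.inl z)) h)))
    exact this
  intro x y hxy
  change slowAdj hl r (t + 1) x y at hxy
  rcases x with u | i | i <;> rcases y with v | j | j <;> simp only [slowAdj] at hxy
  · by_cases h : Ft hl t u v
    · exact le_step _ _ h
    · have hex : ∃ m : ℤ, (t : ℤ) < m ∧ m ≤ TT l ∧ s(u, v) = s(pt hl 0 m, pt hl 1 m) := by
        by_contra hcon
        push Not at hcon
        exact h ⟨hxy.1, hcon⟩
      obtain ⟨m, hm, hm', he⟩ := hex
      have hmt : m = t + 1 := by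
        by_contra hne
        exact hxy.2 m (by omega) hm' he
      rw [hmt] at he
      rcases Sym2.eq_iff.1 he with ⟨rfl, rfl⟩ | ⟨rfl, rfl⟩
      · exact hnew
      · exact hnew.symm
  · exact le_step _ _ hxy

lemma step_slow (hl : 1 ≤ l) (r : ℕ) (t : ℕ) (ht : t < TT l) :
    step HH (slow hl r t) = slow hl r (t + 1) :=
  le_antisymm (step_slow_le hl r t) (slow_succ_le hl r t ht)

lemma process_slow (hl : 1 ≤ l) (r : ℕ) (t : ℕ) (ht : t ≤ TT l) :
    process HH (slow hl r 0) t = slow hl r t := by
  induction t with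
  | zero => rfl
  | succ t ih =>
    rw [process_succ, ih (by omega), step_slow hl r t (by omega)]
    push_cast
    rfl

lemma slow_ne (hl : 1 ≤ l) (r : ℕ) (t : ℕ) (ht : t < TT l) :
    slow hl r t ≠ slow hl r (t + 1) := by
  intro h
  have ht' : (t : ℤ) < TT l := by exact_mod_cast ht
  have h1 : (slow hl r (t + 1)).Adj (Sum.inl (pt hl 0 (t + 1))) (Sum.inl (pt hl 1 (t + 1))) := by
    change Ft hl (t + 1) _ _
    refine ⟨⟨pt_ne_type hl (by decide) _ _, t, by omega, ht', inB_pt_succ hl 0 (by decide) t,
      inB_pt_succ hl 1 (by decide) t⟩, fun j h1 h2 h3 => ?_⟩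
    have := sp_inj hl (by omega) (by omega) (by omega) h2 h3
    omega
  rw [← h] at h1
  have h2 : Ft hl t (pt hl 0 (t + 1)) (pt hl 1 (t + 1)) := h1
  exact h2.2 (t + 1) (by omega) (by omega) rfl

theorem le_runningTime_slow (hl : 1 ≤ l) (r : ℕ) :
    TT l ≤ runningTime HH (slow hl r 0) := by
  apply le_runningTime
  intro t ht
  rw [process_slow hl r t ht.le, process_slow hl r (t + 1) ht]
  push_cast
  exact slow_ne hl r t ht

lemma card_V0 (l r : ℕ) : Fintype.card (V0 l r) = 30 * l ^ 2 + 10 * l + 22 + r := by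
  simp only [Fintype.card_sum, Fintype.card_sigma, Fintype.card_fin]
  simp only [Fin.sum_univ_three, NN, Matrix.cons_val_zero, Matrix.cons_val_one, Matrix.cons_val]
  ring

/-- Lower bound for the maximum running time. -/
theorem maxTime_HH_ge (l : ℕ) (hl : 1 ≤ l) (n : ℕ) (hn : 30 * l ^ 2 + 10 * l + 22 ≤ n) :
    TT l ≤ maxTime HH n := by
  obtain ⟨r, rfl⟩ := Nat.exists_eq_add_of_le hn
  exact (le_runningTime_slow hl r).trans (le_maxTime' HH (card_V0 l r) _)

end Pool.Agent.MP_000f96_co
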