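import Pool.Agent.MP_000f96_co.Graph

set_option linter.unusedSectionVars false
set_option linter.unusedSimpArgs false

namespace Pool.Agent.MP_000f96_co

open SimpleGraph Finset
open Vtx

variable {V : Type} [Fintype V]

/-! ### Bridgelessness: labellings that are constant along edges stay so -/

/-- In the copy of `H` inside `G + uv`, labels constant along edges of `G` are constant along all
edges of `H`. -/
lemma label_copy {α : Type} {G : SimpleGraph V} (lab : V → α)
    (hlab : ∀ x y, G.Adj x y → lab x = lab y) {u v : V} (f : Copy HH (G ⊔ edge u v)) (x y : Vtx)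
    (hxy : HH.Adj x y) : lab (f x) = lab (f y) := by
  -- edges not mapped to `uv` are fine
  have key : ∀ c d, HH.Adj c d → s(f c, f d) ≠ s(u, v) → lab (f c) = lab (f d) := by
    intro c d hcd hne
    have h1 := f.toHom.map_adj hcd
    simp only [Copy.toHom_apply] at h1
    rw [sup_adj, edge_adj] at h1
    rcases h1 with h1 | h1
    · exact hlab _ _ h1
    · exfalso
      apply hne
      rcases h1.1 with ⟨h2, h3⟩ | ⟨h2, h3⟩
      · rw [h2, h3]
      · rw [h2, h3]; exact Sym2.eq_swap
  by_cases he : s(f x, f y) = s(u, v)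
  swap
  · exact key x y hxy he
  have inj : ∀ c d, s(f c, f d) = s(u, v) → s(c, d) = s(x, y) := by
    intro c d h
    rw [← he] at h
    rcases Sym2.eq_iff.1 h with ⟨h2, h3⟩ | ⟨h2, h3⟩
    · rw [f.injective h2, f.injective h3]
    · rw [f.injective h2, f.injective h3]; exact Sym2.eq_swap
  have key' : ∀ c d, HH.Adj c d → s(c, d) ≠ s(x, y) → lab (f c) = lab (f d) := by
    intro c d hcd hne
    exact key c d hcd (fun h => hne (inj c d h))
  clear key inj he
  rw [HH_adj] at hxy
  cases x <;> cases y <;> simp only [Vtx.adj] at hxy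
  case l0.l0 i j =>
    obtain ⟨m, hmi, hmj⟩ : ∃ m : Fin 5, m ≠ i ∧ m ≠ j := by
      clear key' hxy; revert i j; decide
    have h1 := key' (l0 i) (l0 m) (by simpa [HH_adj, Vtx.adj] using hmi.symm) (by
      simp [Sym2.eq_iff, hmi, hmj, hxy])
    have h2 := key' (l0 m) (l0 j) (by simpa [HH_adj, Vtx.adj] using hmj) (by
      simp [Sym2.eq_iff, hmi, hmj, hxy])
    exact h1.trans h2
  case k.k i j =>
    obtain ⟨m, hmi, hmj⟩ : ∃ m : Fin 6, m ≠ i ∧ m ≠ j := by
      clear key' hxy; revert i j; decide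
    have h1 := key' (k i) (k m) (by simpa [HH_adj, Vtx.adj] using hmi.symm) (by
      simp [Sym2.eq_iff, hmi, hmj, hxy])
    have h2 := key' (k m) (k j) (by simpa [HH_adj, Vtx.adj] using hmj) (by
      simp [Sym2.eq_iff, hmi, hmj, hxy])
    exact h1.trans h2
  case l1.l1 i j =>
    obtain ⟨m, hmi, hmj⟩ : ∃ m : Fin 5, m ≠ i ∧ m ≠ j := by
      clear key' hxy; revert i j; decide
    have h1 := key' (l1 i) (l1 m) (by simpa [HH_adj, Vtx.adj] using hmi.symm) (by
      simp [Sym2.eq_iff, hmi, hmj, hxy])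
    have h2 := key' (l1 m) (l1 j) (by simpa [HH_adj, Vtx.adj] using hmj) (by
      simp [Sym2.eq_iff, hmi, hmj, hxy])
    exact h1.trans h2
  case k.w i =>
    rcases hxy with rfl | rfl
    · have h1 := key' (k 0) (k 1) (by simp [HH_adj, Vtx.adj]) (by simp [Sym2.eq_iff])
      have h2 := key' (k 1) w (by simp [HH_adj, Vtx.adj]) (by simp [Sym2.eq_iff])
      exact h1.trans h2
    · have h1 := key' (k 1) (k 0) (by simp [HH_adj, Vtx.adj]) (by simp [Sym2.eq_iff])
      have h2 := key' (k 0) w (by simp [HH_adj, Vtx.adj]) (by simp [Sym2.eq_iff])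
      exact h1.trans h2
  case w.k i =>
    rcases hxy with rfl | rfl
    · have h1 := key' (k 0) (k 1) (by simp [HH_adj, Vtx.adj]) (by simp [Sym2.eq_iff])
      have h2 := key' (k 1) w (by simp [HH_adj, Vtx.adj]) (by simp [Sym2.eq_iff])
      exact (h1.trans h2).symm
    · have h1 := key' (k 1) (k 0) (by simp [HH_adj, Vtx.adj]) (by simp [Sym2.eq_iff])
      have h2 := key' (k 0) w (by simp [HH_adj, Vtx.adj]) (by simp [Sym2.eq_iff])
      exact (h1.trans h2).symm
  case k.l1 i j =>
    rcases hxy with ⟨rfl, rfl⟩ | ⟨rfl, rfl⟩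
    · have h1 := key' (k 2) (k 3) (by simp [HH_adj, Vtx.adj]) (by simp [Sym2.eq_iff])
      have h2 := key' (k 3) (l1 1) (by simp [HH_adj, Vtx.adj]) (by simp [Sym2.eq_iff])
      have h3 := key' (l1 1) (l1 0) (by simp [HH_adj, Vtx.adj]) (by simp [Sym2.eq_iff])
      exact h1.trans (h2.trans h3)
    · have h1 := key' (k 3) (k 2) (by simp [HH_adj, Vtx.adj]) (by simp [Sym2.eq_iff])
      have h2 := key' (k 2) (l1 0) (by simp [HH_adj, Vtx.adj]) (by simp [Sym2.eq_iff])
      have h3 := key' (l1 0) (l1 1) (by simp [HH_adj, Vtx.adj]) (by simp [Sym2.eq_iff])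
      exact h1.trans (h2.trans h3)
  case l1.k j i =>
    rcases hxy with ⟨rfl, rfl⟩ | ⟨rfl, rfl⟩
    · have h1 := key' (k 2) (k 3) (by simp [HH_adj, Vtx.adj]) (by simp [Sym2.eq_iff])
      have h2 := key' (k 3) (l1 1) (by simp [HH_adj, Vtx.adj]) (by simp [Sym2.eq_iff])
      have h3 := key' (l1 1) (l1 0) (by simp [HH_adj, Vtx.adj]) (by simp [Sym2.eq_iff])
      exact (h1.trans (h2.trans h3)).symm
    · have h1 := key' (k 3) (k 2) (by simp [HH_adj, Vtx.adj]) (by simp [Sym2.eq_iff])
      have h2 := key' (k 2) (l1 0) (by simp [HH_adj, Vtx.adj]) (by simp [Sym2.eq_iff])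
      have h3 := key' (l1 0) (l1 1) (by simp [HH_adj, Vtx.adj]) (by simp [Sym2.eq_iff])
      exact (h1.trans (h2.trans h3)).symm

lemma label_step {α : Type} {G : SimpleGraph V} (lab : V → α)
    (hlab : ∀ x y, G.Adj x y → lab x = lab y) (x y : V) (h : (step HH G).Adj x y) :
    lab x = lab y := by
  rw [step_adj_iff] at h
  rcases h with h | ⟨_, _, f, a, b, hab, ha, hb⟩
  · exact hlab x y h
  · have h1 := label_copy lab hlab f a b hab
    rw [ha, hb] at h1
    exact h1

lemma label_process {α : Type} {G : SimpleGraph V} (lab : V → α)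
    (hlab : ∀ x y, G.Adj x y → lab x = lab y) (i : ℕ) :
    ∀ x y, (process HH G i).Adj x y → lab x = lab y := by
  induction i with
  | zero => exact hlab
  | succ i ih =>
    intro x y h
    rw [process_succ] at h
    exact label_step lab ih x y h

/-- A percolating graph is connected: some edge leaves every proper nonempty vertex set. -/
lemma exists_edge_leaving [DecidableEq V] {G : SimpleGraph V} (hG : Percolates HH G)
    {Q : Finset V} (hQ : Q.Nonempty) (hQ' : Q ≠ Finset.univ) :
    ∃ q ∈ Q, ∃ z, z ∉ Q ∧ G.Adj z q := by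
  by_contra hcon
  push Not at hcon
  have hlab : ∀ x y, G.Adj x y → (decide (x ∈ Q)) = decide (y ∈ Q) := by
    intro x y hxy
    by_cases hx : x ∈ Q <;> by_cases hy : y ∈ Q
    · simp [hx, hy]
    · exact absurd hxy.symm (hcon x hx y hy)
    · exact absurd hxy (hcon y hy x hx)
    · simp [hx, hy]
  have h1 := label_process (fun x => decide (x ∈ Q)) hlab (runningTime HH G)
  obtain ⟨q, hq⟩ := hQ
  obtain ⟨z, hz⟩ : ∃ z, z ∉ Q := by
    by_contra h
    push Not at h
    exact hQ' (Finset.eq_univ_iff_forall.2 h)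
  have h2 : (process HH G (runningTime HH G)).Adj q z := by
    rw [show process HH G (runningTime HH G) = ⊤ from hG]
    rw [top_adj]
    rintro rfl
    exact hz hq
  have h3 := h1 q z h2
  simp [hq, hz] at h3

/-! ### Growth of cliques -/

/-- Choose two further elements. -/
lemma exists_two [DecidableEq V] (K : Finset V) (h : 6 ≤ K.card) (S : Finset V)
    (hS : S.card ≤ 4) : ∃ c ∈ K, ∃ d ∈ K, c ≠ d ∧ c ∉ S ∧ d ∉ S := by
  have h1 : 1 < (K \ S).card := by
    have h2 := Finset.le_card_sdiff S K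
    omega
  obtain ⟨c, hc, d, hd, hcd⟩ := Finset.one_lt_card.1 h1
  rw [Finset.mem_sdiff] at hc hd
  exact ⟨c, hc.1, d, hd.1, hcd, hc.2, hd.2⟩

lemma isClique_subset {G : SimpleGraph V} {S T : Finset V} (h : S ⊆ T)
    (hT : G.IsClique (T : Set V)) : G.IsClique (S : Set V) :=
  hT.subset (Finset.coe_subset.2 h)

/-- A clique with at least `11` vertices absorbs a neighbour, given a spare `K_5`. -/
lemma absorb [DecidableEq V] {G : SimpleGraph V} {L0 Q : Finset V} {z q q' : V}
    (c0 : 5 ≤ L0.card) (cQ : 11 ≤ Q.card) (k0 : G.IsClique (L0 : Set V))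
    (kQ : G.IsClique (Q : Set V)) (hd : Disjoint L0 Q) (hz0 : z ∉ L0) (hzQ : z ∉ Q)
    (hq : q ∈ Q) (hzq : G.Adj z q) (hq' : q' ∈ Q) : (step HH G).Adj z q' := by
  by_cases hqq : q = q'
  · subst hqq
    exact le_step _ _ hzq
  have hsub : ({q, q'} : Finset V) ⊆ Q := by
    intro x hx
    simp only [Finset.mem_insert, Finset.mem_singleton] at hx
    rcases hx with rfl | rfl
    · exact hq
    · exact hq'
  obtain ⟨K, hK1, hK2, hK3⟩ := Finset.exists_subsuperset_card_eq (n := 6) hsub
    (by have := Finset.card_le_two (a := q) (b := q'); omega) (by omega)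
  have hqK : q ∈ K := hK1 (by simp)
  have hq'K : q' ∈ K := hK1 (by simp)
  obtain ⟨c, hc, d, hd', hcd, hcS, hdS⟩ := exists_two K (by omega) {q, q'}
    (le_trans Finset.card_le_two (by norm_num))
  simp only [Finset.mem_insert, Finset.mem_singleton, not_or] at hcS hdS
  have hL1 : 5 ≤ (Q \ K).card := by
    have := Finset.le_card_sdiff K Q
    omega
  obtain ⟨l, hl, l', hl', hll⟩ := Finset.one_lt_card.1 (show 1 < (Q \ K).card by omega)
  have hlQ : l ∈ Q := (Finset.mem_sdiff.1 hl).1
  have hl'Q : l' ∈ Q := (Finset.mem_sdiff.1 hl').1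
  have conf : Config G L0 K (Q \ K) z :=
    { c0 := c0
      cK := by omega
      c1 := hL1
      q0 := k0
      qK := isClique_subset hK2 kQ
      q1 := isClique_subset Finset.sdiff_subset kQ
      d0K := Finset.disjoint_of_subset_right hK2 hd
      d01 := Finset.disjoint_of_subset_right Finset.sdiff_subset hd
      dK1 := Finset.disjoint_sdiff
      z0 := hz0
      zK := fun h => hzQ (hK2 h)
      z1 := fun h => hzQ (Finset.sdiff_subset h) }
  refine (moves conf hqK hq'K hc hd' hqq (Ne.symm hcS.1) (Ne.symm hdS.1) (Ne.symm hcS.2)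
    (Ne.symm hdS.2) hcd hl hl' hll hzq ?_).1 ?_
  · exact kQ hlQ (hK2 hc) (fun h => (Finset.mem_sdiff.1 hl).2 (h ▸ hc))
  · exact kQ hl'Q (hK2 hd') (fun h => (Finset.mem_sdiff.1 hl').2 (h ▸ hd'))

/-- A clique with at least `16` vertices absorbs every neighbour. -/
lemma absorb' [DecidableEq V] {G : SimpleGraph V} {Q : Finset V} {z q q' : V}
    (cQ : 16 ≤ Q.card) (kQ : G.IsClique (Q : Set V)) (hzQ : z ∉ Q)
    (hq : q ∈ Q) (hzq : G.Adj z q) (hq' : q' ∈ Q) : (step HH G).Adj z q' := by
  have h1 : 5 ≤ (Q \ {q, q'}).card := by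
    have := Finset.le_card_sdiff {q, q'} Q
    have := Finset.card_le_two (a := q) (b := q')
    omega
  obtain ⟨L0, hL0, hL0c⟩ := Finset.exists_subset_card_eq h1
  have hL0Q : L0 ⊆ Q := hL0.trans Finset.sdiff_subset
  have hqL : q ∉ L0 := fun h => by simpa using (Finset.mem_sdiff.1 (hL0 h)).2
  have hq'L : q' ∉ L0 := fun h => by simpa using (Finset.mem_sdiff.1 (hL0 h)).2
  exact absorb (L0 := L0) (Q := Q \ L0) (by omega)
    (by have := Finset.le_card_sdiff L0 Q; omega)
    (isClique_subset hL0Q kQ) (isClique_subset Finset.sdiff_subset kQ) Finset.disjoint_sdiff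
    (fun h => hzQ (hL0Q h)) (fun h => hzQ (Finset.sdiff_subset h))
    (Finset.mem_sdiff.2 ⟨hq, hqL⟩) hzq (Finset.mem_sdiff.2 ⟨hq', hq'L⟩)

/-- A clique with at least `12` vertices starts to absorb an adjacent `K_5`. -/
lemma merge [DecidableEq V] {G : SimpleGraph V} {L Q : Finset V} {l l' c d : V}
    (cL : 5 ≤ L.card) (cQ : 12 ≤ Q.card) (kL : G.IsClique (L : Set V))
    (kQ : G.IsClique (Q : Set V)) (hdj : Disjoint L Q) (hl : l ∈ L) (hl' : l' ∈ L)
    (hc : c ∈ Q) (hd : d ∈ Q) (hlc : G.Adj l c) (hll : l ≠ l') (hcd : c ≠ d) :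
    (step HH G).Adj l' d := by
  have hsub : ({c, d} : Finset V) ⊆ Q := by
    intro x hx
    simp only [Finset.mem_insert, Finset.mem_singleton] at hx
    rcases hx with rfl | rfl
    · exact hc
    · exact hd
  obtain ⟨K, hK1, hK2, hK3⟩ := Finset.exists_subsuperset_card_eq (n := 6) hsub
    (by have := Finset.card_le_two (a := c) (b := d); omega) (by omega)
  have hcK : c ∈ K := hK1 (by simp)
  have hdK : d ∈ K := hK1 (by simp)
  obtain ⟨a, ha, b, hb, hab, haS, hbS⟩ := exists_two K (by omega) {c, d}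
    (le_trans Finset.card_le_two (by norm_num))
  simp only [Finset.mem_insert, Finset.mem_singleton, not_or] at haS hbS
  have hQK : 6 ≤ (Q \ K).card := by
    have := Finset.le_card_sdiff K Q
    omega
  obtain ⟨z, hz⟩ : (Q \ K).Nonempty := Finset.card_pos.1 (by omega)
  have hzQ : z ∈ Q := (Finset.mem_sdiff.1 hz).1
  have hzK : z ∉ K := (Finset.mem_sdiff.1 hz).2
  have hL0 : 5 ≤ ((Q \ K).erase z).card := by
    rw [Finset.card_erase_of_mem hz]; omega
  have hsub0 : ((Q \ K).erase z) ⊆ Q := (Finset.erase_subset _ _).trans Finset.sdiff_subset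
  have conf : Config G ((Q \ K).erase z) K L z :=
    { c0 := hL0
      cK := by omega
      c1 := cL
      q0 := isClique_subset hsub0 kQ
      qK := isClique_subset hK2 kQ
      q1 := kL
      d0K := by
        rw [Finset.disjoint_left]
        intro x hx hxK
        exact (Finset.mem_sdiff.1 (Finset.mem_of_mem_erase hx)).2 hxK
      d01 := (Finset.disjoint_of_subset_right hsub0 hdj).symm
      dK1 := (Finset.disjoint_of_subset_right hK2 hdj).symm
      z0 := Finset.notMem_erase _ _
      zK := hzK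
      z1 := fun h => Finset.disjoint_left.1 hdj h hzQ }
  refine (moves conf ha hb hcK hdK hab haS.1 haS.2 hbS.1 hbS.2 hcd hl hl' hll ?_ hlc).2 ?_
  · exact kQ hzQ (hK2 ha) (fun h => hzK (h ▸ ha))
  · exact kQ hzQ (hK2 hb) (fun h => hzK (h ▸ hb))

/-- A clique with at least `12` vertices absorbs an adjacent `K_5` in two rounds. -/
lemma merge2 [DecidableEq V] {G : SimpleGraph V} {L Q : Finset V} {l c : V}
    (cL : 5 ≤ L.card) (cQ : 12 ≤ Q.card) (kL : G.IsClique (L : Set V))
    (kQ : G.IsClique (Q : Set V)) (hdj : Disjoint L Q) (hl : l ∈ L) (hc : c ∈ Q)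
    (hlc : G.Adj l c) {l' d : V} (hl' : l' ∈ L) (hd : d ∈ Q) :
    (step HH (step HH G)).Adj l' d := by
  have kL' : (step HH G).IsClique (L : Set V) := kL.mono (le_step _ _)
  have kQ' : (step HH G).IsClique (Q : Set V) := kQ.mono (le_step _ _)
  -- pick auxiliary vertices
  obtain ⟨m, hm, hm1, hm2⟩ : ∃ m ∈ L, m ≠ l ∧ m ≠ l' := by
    have h1 : 0 < (L \ {l, l'}).card := by
      have := Finset.le_card_sdiff {l, l'} L
      have := Finset.card_le_two (a := l) (b := l')
      omega
    obtain ⟨m, hm⟩ := Finset.card_pos.1 h1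
    simp only [Finset.mem_sdiff, Finset.mem_insert, Finset.mem_singleton, not_or] at hm
    exact ⟨m, hm.1, hm.2.1, hm.2.2⟩
  obtain ⟨e, he, he1, he2⟩ : ∃ e ∈ Q, e ≠ c ∧ e ≠ d := by
    have h1 : 0 < (Q \ {c, d}).card := by
      have := Finset.le_card_sdiff {c, d} Q
      have := Finset.card_le_two (a := c) (b := d)
      omega
    obtain ⟨m, hm⟩ := Finset.card_pos.1 h1
    simp only [Finset.mem_sdiff, Finset.mem_insert, Finset.mem_singleton, not_or] at hm
    exact ⟨m, hm.1, hm.2.1, hm.2.2⟩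
  have h1 : (step HH G).Adj m e :=
    merge cL cQ kL kQ hdj hl hm hc he hlc hm1.symm he1.symm
  exact merge cL cQ kL' kQ' hdj hm hl' he hd h1 hm2 he2

end Pool.Agent.MP_000f96_co
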