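import Pool.Agent.MP_000f96_co.Upper

set_option linter.unusedSectionVars false
set_option linter.unusedSimpArgs false

namespace Pool.Agent.MP_000f96_co

open SimpleGraph Finset
open Vtx

variable {V : Type} [Fintype V]

lemma Config.mono {G G' : SimpleGraph V} {L0 K L1 : Finset V} {z : V}
    (hc : Config G L0 K L1 z) (h : G ≤ G') : Config G' L0 K L1 z :=
  { c0 := hc.c0
    cK := hc.cK
    c1 := hc.c1
    q0 := hc.q0.mono h
    qK := hc.qK.mono h
    q1 := hc.q1.mono h
    d0K := hc.d0K
    d01 := hc.d01
    dK1 := hc.dK1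
    z0 := hc.z0
    zK := hc.zK
    z1 := hc.z1 }

lemma grow0 [DecidableEq V] {G : SimpleGraph V} (f : Copy HH G) :
    ∃ L Q : Finset V, 5 ≤ L.card ∧ 12 ≤ Q.card ∧ Disjoint L Q ∧
      (process HH G 3).IsClique (L : Set V) ∧ (process HH G 3).IsClique (Q : Set V) := by
  have hf := f.injective
  have hne : ∀ {x y : Vtx}, x ≠ y → f x ≠ f y := fun h e => h (hf e)
  have hadj : ∀ {x y : Vtx}, Vtx.adj x y → G.Adj (f x) (f y) := fun h => f.toHom.map_adj h
  let L0 : Finset V := Finset.univ.image (fun i => f (l0 i))
  let K : Finset V := Finset.univ.image (fun i => f (k i))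
  let L1 : Finset V := Finset.univ.image (fun i => f (l1 i))
  let z : V := f w
  have mK : ∀ i, f (k i) ∈ K := fun i => Finset.mem_image_of_mem _ (Finset.mem_univ i)
  have mL : ∀ i, f (l1 i) ∈ L1 := fun i => Finset.mem_image_of_mem _ (Finset.mem_univ i)
  have hL0 : L0.card = 5 := by
    simp only [L0]
    rw [Finset.card_image_of_injective]
    · simp
    · intro i j h
      have := hf h
      simpa using this
  have hK : K.card = 6 := by
    simp only [K]
    rw [Finset.card_image_of_injective]
    · simp
    · intro i j h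
      have := hf h
      simpa using this
  have hL1 : L1.card = 5 := by
    simp only [L1]
    rw [Finset.card_image_of_injective]
    · simp
    · intro i j h
      have := hf h
      simpa using this
  have memL0 : ∀ x, x ∈ L0 ↔ ∃ i, f (l0 i) = x := by intro x; simp [L0]
  have memK : ∀ x, x ∈ K ↔ ∃ i, f (k i) = x := by intro x; simp [K]
  have memL1 : ∀ x, x ∈ L1 ↔ ∃ i, f (l1 i) = x := by intro x; simp [L1]
  have conf : Config G L0 K L1 z :=
    { c0 := by omega
      cK := by omega
      c1 := by omega
      q0 := by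
        intro x hx y hy hxy
        obtain ⟨i, rfl⟩ := (memL0 x).1 hx
        obtain ⟨j, rfl⟩ := (memL0 y).1 hy
        exact hadj (fun h => hxy (by rw [h]))
      qK := by
        intro x hx y hy hxy
        obtain ⟨i, rfl⟩ := (memK x).1 hx
        obtain ⟨j, rfl⟩ := (memK y).1 hy
        exact hadj (fun h => hxy (by rw [h]))
      q1 := by
        intro x hx y hy hxy
        obtain ⟨i, rfl⟩ := (memL1 x).1 hx
        obtain ⟨j, rfl⟩ := (memL1 y).1 hy
        exact hadj (fun h => hxy (by rw [h]))
      d0K := by
        rw [Finset.disjoint_left]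
        intro x hx hy
        obtain ⟨i, rfl⟩ := (memL0 x).1 hx
        obtain ⟨j, hj⟩ := (memK _).1 hy
        exact hne (by simp) hj
      d01 := by
        rw [Finset.disjoint_left]
        intro x hx hy
        obtain ⟨i, rfl⟩ := (memL0 x).1 hx
        obtain ⟨j, hj⟩ := (memL1 _).1 hy
        exact hne (by simp) hj
      dK1 := by
        rw [Finset.disjoint_left]
        intro x hx hy
        obtain ⟨i, rfl⟩ := (memK x).1 hx
        obtain ⟨j, hj⟩ := (memL1 _).1 hy
        exact hne (by simp) hj
      z0 := by
        intro hx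
        obtain ⟨i, hi⟩ := (memL0 _).1 hx
        exact hne (by simp) hi
      zK := by
        intro hx
        obtain ⟨i, hi⟩ := (memK _).1 hx
        exact hne (by simp) hi
      z1 := by
        intro hx
        obtain ⟨i, hi⟩ := (memL1 _).1 hx
        exact hne (by simp) hi }
  have kne : ∀ {i j : Fin 6}, i ≠ j → f (k i) ≠ f (k j) := fun h => hne (by simpa using h)
  have lne : ∀ {i j : Fin 5}, i ≠ j → f (l1 i) ≠ f (l1 j) := fun h => hne (by simpa using h)
  have zk0 : G.Adj z (f (k 0)) := hadj (by simp [Vtx.adj])
  have zk1 : G.Adj z (f (k 1)) := hadj (by simp [Vtx.adj])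
  have l0k2 : G.Adj (f (l1 0)) (f (k 2)) := hadj (by simp [Vtx.adj])
  have l1k3 : G.Adj (f (l1 1)) (f (k 3)) := hadj (by simp [Vtx.adj])
  -- first round
  let G1 := step HH G
  have le1 : G ≤ G1 := le_step _ _
  have a1 : ∀ j : Fin 6, j ≠ 0 → j ≠ 2 → j ≠ 3 → G1.Adj z (f (k j)) := by
    intro j h0 h2 h3
    exact (moves conf (mK 0) (mK j) (mK 2) (mK 3) (kne h0.symm) (kne (by decide))
      (kne (by decide)) (kne h2) (kne h3) (kne (by decide)) (mL 0) (mL 1)
      (lne (by decide)) zk0 l0k2).1 l1k3
  have a2 : ∀ i : Fin 5, ∀ j : Fin 6, j ≠ 0 → j ≠ 1 → j ≠ 2 → j ≠ 3 →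
      G1.Adj (f (l1 i)) (f (k j)) := by
    intro i j h0 h1 h2 h3
    by_cases hi : i = 0
    · subst hi
      exact (moves conf (mK 0) (mK 1) (mK 3) (mK j) (kne (by decide)) (kne (by decide))
        (kne h0.symm) (kne (by decide)) (kne h1.symm) (kne h3.symm) (mL 1) (mL 0)
        (lne (by decide)) zk0 l1k3).2 zk1
    · exact (moves conf (mK 0) (mK 1) (mK 2) (mK j) (kne (by decide)) (kne (by decide))
        (kne h0.symm) (kne (by decide)) (kne h1.symm) (kne h2.symm) (mL 0) (mL i)
        (lne (Ne.symm hi)) zk0 l0k2).2 zk1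
  -- second round
  let G2 := step HH G1
  have le2 : G1 ≤ G2 := le_step _ _
  have conf1 : Config G1 L0 K L1 z := conf.mono le1
  have b1 : ∀ j : Fin 6, G2.Adj z (f (k j)) := by
    intro j
    by_cases h0 : j = 0
    · subst h0
      exact le2 (le1 zk0)
    by_cases h23 : j = 2 ∨ j = 3
    · have hj4 : j ≠ 4 := by rcases h23 with rfl | rfl <;> decide
      have hj5 : j ≠ 5 := by rcases h23 with rfl | rfl <;> decide
      exact (moves conf1 (mK 0) (mK j) (mK 4) (mK 5) (kne (Ne.symm h0)) (kne (by decide))
        (kne (by decide)) (kne hj4) (kne hj5) (kne (by decide)) (mL 0) (mL 1)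
        (lne (by decide)) (le1 zk0) (a2 0 4 (by decide) (by decide) (by decide) (by decide))).1
        (a2 1 5 (by decide) (by decide) (by decide) (by decide))
    · push Not at h23
      exact le2 (a1 j h0 h23.1 h23.2)
  have b2 : ∀ i : Fin 5, ∀ j : Fin 6, G2.Adj (f (l1 i)) (f (k j)) := by
    intro i j
    by_cases hj : j = 4 ∨ j = 5
    · apply le2
      rcases hj with rfl | rfl
      · exact a2 i 4 (by decide) (by decide) (by decide) (by decide)
      · exact a2 i 5 (by decide) (by decide) (by decide) (by decide)
    push Not at hj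
    obtain ⟨i', hi'⟩ : ∃ i' : Fin 5, i' ≠ i := ⟨i + 1, by revert i; decide⟩
    obtain ⟨m, hm, hmj⟩ : ∃ m : Fin 6, (m = 0 ∨ m = 1) ∧ m ≠ j := by
      by_cases h : j = 0
      · exact ⟨1, by simp, by rw [h]; decide⟩
      · exact ⟨0, by simp, Ne.symm h⟩
    have hm4 : m ≠ 4 := by rcases hm with rfl | rfl <;> decide
    have hm5 : m ≠ 5 := by rcases hm with rfl | rfl <;> decide
    have zkm : G.Adj z (f (k m)) := by
      rcases hm with rfl | rfl
      · exact zk0
      · exact zk1
    exact (moves conf1 (mK 5) (mK m) (mK 4) (mK j) (kne (Ne.symm hm5)) (kne (by decide))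
      (kne (Ne.symm hj.2)) (kne hm4) (kne hmj) (kne (Ne.symm hj.1)) (mL i') (mL i)
      (lne hi') (a1 5 (by decide) (by decide) (by decide))
      (a2 i' 4 (by decide) (by decide) (by decide) (by decide))).2 (le1 zkm)
  -- third round
  let G3 := step HH G2
  have le3 : G2 ≤ G3 := le_step _ _
  have conf2 : Config G2 L0 K L1 z := conf1.mono le2
  have c1 : ∀ i : Fin 5, G3.Adj z (f (l1 i)) := by
    intro i
    obtain ⟨m, m', hmi, hm'i, hmm⟩ : ∃ m m' : Fin 5, m ≠ i ∧ m' ≠ i ∧ m ≠ m' :=
      ⟨i + 1, i + 2, by revert i; decide, by revert i; decide, by revert i; decide⟩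
    have hlK : f (l1 i) ∉ K := fun h => Finset.disjoint_left.1 conf.dK1 h (mL i)
    have hkL : f (k 5) ∉ L1 := fun h => Finset.disjoint_left.1 conf.dK1 (mK 5) h
    have conf' : Config G2 L0 (insert (f (l1 i)) (K.erase (f (k 5))))
        (insert (f (k 5)) (L1.erase (f (l1 i)))) z :=
      { c0 := conf.c0
        cK := by
          rw [Finset.card_insert_of_notMem (fun h => hlK (Finset.mem_of_mem_erase h)),
            Finset.card_erase_of_mem (mK 5)]
          omega
        c1 := by
          rw [Finset.card_insert_of_notMem (fun h => hkL (Finset.mem_of_mem_erase h)),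
            Finset.card_erase_of_mem (mL i)]
          omega
        q0 := conf2.q0
        qK := by
          rw [Finset.coe_insert]
          refine (isClique_subset (Finset.erase_subset _ _) conf2.qK).insert ?_
          intro b hb _
          obtain ⟨j, rfl⟩ := (memK _).1 (Finset.mem_of_mem_erase hb)
          exact b2 i j
        q1 := by
          rw [Finset.coe_insert]
          refine (isClique_subset (Finset.erase_subset _ _) conf2.q1).insert ?_
          intro b hb _
          obtain ⟨j, rfl⟩ := (memL1 _).1 (Finset.mem_of_mem_erase hb)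
          exact (b2 j 5).symm
        d0K := by
          rw [Finset.disjoint_left]
          intro x hx hy
          rcases Finset.mem_insert.1 hy with rfl | hy
          · exact Finset.disjoint_left.1 conf.d01 hx (mL i)
          · exact Finset.disjoint_left.1 conf.d0K hx (Finset.mem_of_mem_erase hy)
        d01 := by
          rw [Finset.disjoint_left]
          intro x hx hy
          rcases Finset.mem_insert.1 hy with rfl | hy
          · exact Finset.disjoint_left.1 conf.d0K hx (mK 5)
          · exact Finset.disjoint_left.1 conf.d01 hx (Finset.mem_of_mem_erase hy)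
        dK1 := by
          rw [Finset.disjoint_left]
          intro x hx hy
          rcases Finset.mem_insert.1 hx with rfl | hx
          · rcases Finset.mem_insert.1 hy with hy | hy
            · exact hlK (hy ▸ mK 5)
            · exact (Finset.mem_erase.1 hy).1 rfl
          · rcases Finset.mem_insert.1 hy with hy | hy
            · exact (Finset.mem_erase.1 hx).1 hy
            · exact Finset.disjoint_left.1 conf.dK1 (Finset.mem_of_mem_erase hx)
                (Finset.mem_of_mem_erase hy)
        z0 := conf.z0
        zK := by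
          intro h
          rcases Finset.mem_insert.1 h with h | h
          · exact conf.z1 (h ▸ mL i)
          · exact conf.zK (Finset.mem_of_mem_erase h)
        z1 := by
          intro h
          rcases Finset.mem_insert.1 h with h | h
          · exact conf.zK (h ▸ mK 5)
          · exact conf.z1 (Finset.mem_of_mem_erase h) }
    have mk : ∀ j : Fin 6, j ≠ 5 → f (k j) ∈ insert (f (l1 i)) (K.erase (f (k 5))) := by
      intro j hj
      exact Finset.mem_insert_of_mem (Finset.mem_erase.2 ⟨kne hj, mK j⟩)
    have ml : ∀ j : Fin 5, j ≠ i → f (l1 j) ∈ insert (f (k 5)) (L1.erase (f (l1 i))) := by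
      intro j hj
      exact Finset.mem_insert_of_mem (Finset.mem_erase.2 ⟨lne hj, mL j⟩)
    have kl : ∀ j : Fin 6, f (k j) ≠ f (l1 i) := fun j => hne (by simp)
    exact (moves conf' (mk 0 (by decide)) (Finset.mem_insert_self _ _) (mk 1 (by decide))
      (mk 2 (by decide)) (kl 0) (kne (by decide)) (kne (by decide)) (Ne.symm (kl 1))
      (Ne.symm (kl 2)) (kne (by decide)) (ml m hmi) (ml m' hm'i) (lne hmm) (b1 0) (b2 m 1)).1
      (b2 m' 2)
  have conf3 : Config G3 L0 K L1 z := conf2.mono le3
  have hP3 : process HH G 3 = G3 := rfl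
  refine ⟨L0, insert z (K ∪ L1), by omega, ?_, ?_, ?_, ?_⟩
  · rw [Finset.card_insert_of_notMem, Finset.card_union_of_disjoint conf.dK1]
    · omega
    · intro h
      rcases Finset.mem_union.1 h with h | h
      · exact conf.zK h
      · exact conf.z1 h
  · rw [Finset.disjoint_left]
    intro x hx hy
    rcases Finset.mem_insert.1 hy with rfl | hy
    · exact conf.z0 hx
    rcases Finset.mem_union.1 hy with hy | hy
    · exact Finset.disjoint_left.1 conf.d0K hx hy
    · exact Finset.disjoint_left.1 conf.d01 hx hy
  · rw [hP3]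
    exact conf3.q0
  · rw [hP3, Finset.coe_insert]
    refine IsClique.insert ?_ ?_
    · intro x hx y hy hxy
      rw [Finset.mem_coe, Finset.mem_union] at hx hy
      rcases hx with hx | hx <;> rcases hy with hy | hy
      · exact conf3.qK hx hy hxy
      · obtain ⟨i, rfl⟩ := (memK _).1 hx
        obtain ⟨j, rfl⟩ := (memL1 _).1 hy
        exact le3 (b2 j i).symm
      · obtain ⟨i, rfl⟩ := (memL1 _).1 hx
        obtain ⟨j, rfl⟩ := (memK _).1 hy
        exact le3 (b2 i j)
      · exact conf3.q1 hx hy hxy
    · intro b hb _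
      rcases Finset.mem_union.1 (Finset.mem_coe.1 hb) with hb | hb
      · obtain ⟨i, rfl⟩ := (memK _).1 hb
        exact le3 (b1 i)
      · obtain ⟨i, rfl⟩ := (memL1 _).1 hb
        exact c1 i

/-- The growing structure. -/
def Grown (G : SimpleGraph V) (s : ℕ) : Prop :=
  (∃ L Q : Finset V, 5 ≤ L.card ∧ 12 ≤ Q.card ∧ s ≤ Q.card ∧ Disjoint L Q ∧
      G.IsClique (L : Set V) ∧ G.IsClique (Q : Set V)) ∨
  (∃ Q : Finset V, 16 ≤ Q.card ∧ s ≤ Q.card ∧ G.IsClique (Q : Set V))

lemma Grown.mono {G G' : SimpleGraph V} {s : ℕ} (h : Grown G s) (hle : G ≤ G') :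
    Grown G' s := by
  rcases h with ⟨L, Q, h1, h2, h3, h4, h5, h6⟩ | ⟨Q, h1, h2, h3⟩
  · exact Or.inl ⟨L, Q, h1, h2, h3, h4, h5.mono hle, h6.mono hle⟩
  · exact Or.inr ⟨Q, h1, h2, h3.mono hle⟩

lemma grow_step [DecidableEq V] {G0 : SimpleGraph V} (hG : Percolates HH G0)
    {G : SimpleGraph V} (hle : G0 ≤ G) {s : ℕ} (h : Grown G s) :
    G = ⊤ ∨ Grown (process HH G 2) (s + 1) := by
  have hP2 : process HH G 2 = step HH (step HH G) := rfl
  rcases h with ⟨L, Q, h1, h2, h3, h4, h5, h6⟩ | ⟨Q, h1, h2, h3⟩
  · right
    have hQne : Q.Nonempty := Finset.card_pos.1 (by omega)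
    have hQuniv : Q ≠ Finset.univ := by
      rintro rfl
      obtain ⟨x, hx⟩ : L.Nonempty := Finset.card_pos.1 (by omega)
      exact Finset.disjoint_left.1 h4 hx (Finset.mem_univ x)
    obtain ⟨q, hq, z, hz, hzq⟩ := exists_edge_leaving hG hQne hQuniv
    have hzq' : G.Adj z q := hle hzq
    by_cases hzL : z ∈ L
    · right
      refine ⟨L ∪ Q, ?_, ?_, ?_⟩
      · rw [Finset.card_union_of_disjoint h4]; omega
      · rw [Finset.card_union_of_disjoint h4]; omega
      · rw [hP2]
        have hle2 : G ≤ step HH (step HH G) := (le_step _ _).trans (le_step _ _)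
        have hm : ∀ l' ∈ L, ∀ d ∈ Q, (step HH (step HH G)).Adj l' d := fun l' hl' d hd =>
          merge2 h1 h2 h5 h6 h4 hzL hq hzq' hl' hd
        intro x hx y hy hxy
        rw [Finset.mem_coe, Finset.mem_union] at hx hy
        rcases hx with hx | hx <;> rcases hy with hy | hy
        · exact hle2 (h5 hx hy hxy)
        · exact hm x hx y hy
        · exact (hm y hy x hx).symm
        · exact hle2 (h6 hx hy hxy)
    · have hle1 : G ≤ step HH G := le_step _ _
      have hg : Grown (step HH G) (s + 1) := by
        left
        refine ⟨L, insert z Q, h1, ?_, ?_, ?_, h5.mono hle1, ?_⟩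
        · rw [Finset.card_insert_of_notMem hz]; omega
        · rw [Finset.card_insert_of_notMem hz]; omega
        · rw [Finset.disjoint_insert_right]
          exact ⟨hzL, h4⟩
        · rw [Finset.coe_insert]
          refine (h6.mono hle1).insert ?_
          intro b hb _
          exact absorb h1 (by omega) h5 h6 h4 hzL hz hq hzq' hb
      rw [hP2]
      exact hg.mono (le_step _ _)
  · by_cases hQuniv : Q = Finset.univ
    · left
      rw [hQuniv] at h3
      ext x y
      rw [top_adj]
      exact ⟨fun h => h.ne, fun h => h3 (by simp) (by simp) h⟩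
    · right
      have hQne : Q.Nonempty := Finset.card_pos.1 (by omega)
      obtain ⟨q, hq, z, hz, hzq⟩ := exists_edge_leaving hG hQne hQuniv
      have hzq' : G.Adj z q := hle hzq
      have hle1 : G ≤ step HH G := le_step _ _
      have hg : Grown (step HH G) (s + 1) := by
        right
        refine ⟨insert z Q, ?_, ?_, ?_⟩
        · rw [Finset.card_insert_of_notMem hz]; omega
        · rw [Finset.card_insert_of_notMem hz]; omega
        · rw [Finset.coe_insert]
          refine (h3.mono hle1).insert ?_
          intro b hb _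
          exact absorb' (by omega) h3 hz hq hzq' hb
      rw [hP2]
      exact hg.mono (le_step _ _)

/-- Every percolating graph percolates in linear time. -/
theorem runningTime_le_of_percolates {G : SimpleGraph V} (hG : Percolates HH G) :
    runningTime HH G ≤ 2 * Fintype.card V + 4 := by
  classical
  by_cases h0 : process HH G 0 = process HH G (0 + 1)
  · exact (runningTime_le HH G h0).trans (by omega)
  -- a copy of `H` exists after one round
  have hcopy : Nonempty (Copy HH (process HH G 1)) := by
    have hne : ∃ u v, ¬ G.Adj u v ∧ (step HH G).Adj u v := by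
      by_contra hcon
      push Not at hcon
      apply h0
      rw [process_succ, process_zero]
      apply le_antisymm (le_step _ _)
      intro u v huv
      by_contra hG'
      exact hcon u v hG' huv
    obtain ⟨u, v, hn, huv⟩ := hne
    have h1 := (step_adj_iff G HH u v).1 huv
    rcases h1 with h1 | ⟨h2, h3, f, _⟩
    · exact absurd h1 hn
    · have hle : G ⊔ edge u v ≤ step HH G := by
        apply sup_le (le_step _ _)
        intro x y hxy
        rw [edge_adj] at hxy
        rcases hxy.1 with ⟨rfl, rfl⟩ | ⟨rfl, rfl⟩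
        · exact huv
        · exact huv.symm
      exact ⟨(Copy.ofLE _ _ hle).comp f⟩
  obtain ⟨f⟩ := hcopy
  obtain ⟨L, Q, hL, hQ, hd, kL, kQ⟩ := grow0 f
  have h4 : process HH (process HH G 1) 3 = process HH G 4 := by
    rw [← process_add]
  rw [h4] at kL kQ
  have hmain : ∀ j : ℕ, process HH G (4 + 2 * j) = ⊤ ∨ Grown (process HH G (4 + 2 * j)) j := by
    intro j
    induction j with
    | zero => exact Or.inr (Or.inl ⟨L, Q, hL, hQ, Nat.zero_le _, hd, kL, kQ⟩)
    | succ j ih =>
      have heq : process HH G (4 + 2 * (j + 1)) = process HH (process HH G (4 + 2 * j)) 2 := by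
        rw [← process_add]
        congr 1
      rcases ih with ih | ih
      · left
        apply le_antisymm le_top
        rw [← ih]
        exact process_mono_time HH G (by omega)
      · have hle : G ≤ process HH G (4 + 2 * j) := process_mono_time HH G (Nat.zero_le _)
        rcases grow_step hG hle ih with h | h
        · left
          apply le_antisymm le_top
          rw [← h]
          exact process_mono_time HH G (by omega)
        · right
          rw [heq]
          exact h
  have hfin : process HH G (4 + 2 * Fintype.card V) = ⊤ := by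
    rcases hmain (Fintype.card V) with h | h
    · exact h
    · have hcard : ∃ Q : Finset V, Fintype.card V ≤ Q.card ∧
          (process HH G (4 + 2 * Fintype.card V)).IsClique (Q : Set V) := by
        rcases h with ⟨L, Q, h1, h2, h3, h4, h5, h6⟩ | ⟨Q, h1, h2, h3⟩
        · exact ⟨Q, h3, h6⟩
        · exact ⟨Q, h2, h3⟩
      obtain ⟨Q, hQc, hQq⟩ := hcard
      have hQu : Q = Finset.univ := (Finset.card_eq_iff_eq_univ Q).1
        (le_antisymm (Finset.card_le_univ Q) hQc)
      rw [hQu] at hQq
      ext x y
      rw [top_adj]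
      exact ⟨fun h => h.ne, fun h => hQq (by simp) (by simp) h⟩
  have := runningTime_le_of_top HH G hfin
  omega

theorem maxPercTime_HH_le (n : ℕ) : maxPercTime HH n ≤ 2 * n + 4 := by
  apply maxPercTime_le
  intro G hG
  have := runningTime_le_of_percolates hG
  simpa using this

end Pool.Agent.MP_000f96_co
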